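import Mathlib

/-!
Chinese remainder sums.
-/

set_option autoImplicit false

open Finset

namespace Pool.Agent.Y525.QC

/-- sums of products of functions of the residues -/
lemma crt_sum (S : Finset ℕ) (hS : ∀ p ∈ S, p.Prime) (g : ℕ → ℕ → ℝ) (hg : ∀ p r, 0 ≤ g p r) :
    ∑ r ∈ range (∏ p ∈ S, p), ∏ p ∈ S, g p (r % p) ≤ ∏ p ∈ S, ∑ r ∈ range p, g p r := by
  classical
  induction S using Finset.induction_on with
  | empty => simp
  | insert p S hp ih =>
    have hS' : ∀ q ∈ S, q.Prime := fun q hq => hS q (Finset.mem_insert_of_mem hq)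
    have hpp : p.Prime := hS p (Finset.mem_insert_self _ _)
    set W := ∏ q ∈ S, q with hW
    have hW0 : 0 < W := Finset.prod_pos fun q hq => (hS' q hq).pos
    have hcop : Nat.Coprime p W := by
      apply Nat.Coprime.prod_right
      intro q hq
      exact (Nat.coprime_primes hpp (hS' q hq)).2 fun h => hp (h ▸ hq)
    rw [Finset.prod_insert hp, Finset.prod_insert hp]
    have h1 : ∀ r, ∏ q ∈ insert p S, g q (r % q) =
        g p (r % p) * ∏ q ∈ S, g q ((r % W) % q) := by
      intro r
      rw [Finset.prod_insert hp]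
      congr 1
      apply Finset.prod_congr rfl
      intro q hq
      rw [Nat.mod_mod_of_dvd _ (Finset.dvd_prod_of_mem _ hq)]
    simp only [h1]
    set h : ℕ × ℕ → ℝ := fun u => g p u.1 * ∏ q ∈ S, g q (u.2 % q) with hh
    have hinj : Set.InjOn (fun r => (r % p, r % W)) (range (p * W) : Finset ℕ) := by
      intro a ha b hb hab
      simp only [Prod.mk.injEq] at hab
      have hc := (Nat.modEq_and_modEq_iff_modEq_mul hcop).1 ⟨hab.1, hab.2⟩
      rw [Finset.mem_coe, Finset.mem_range] at ha hb
      exact Nat.ModEq.eq_of_lt_of_lt hc ha hb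
    calc ∑ r ∈ range (p * W), g p (r % p) * ∏ q ∈ S, g q ((r % W) % q)
        = ∑ r ∈ range (p * W), h (r % p, r % W) := rfl
      _ = ∑ u ∈ (range (p * W)).image (fun r => (r % p, r % W)), h u := by
          rw [Finset.sum_image hinj]
      _ ≤ ∑ u ∈ range p ×ˢ range W, h u := by
          apply Finset.sum_le_sum_of_subset_of_nonneg
          · intro u hu
            obtain ⟨r, -, rfl⟩ := Finset.mem_image.1 hu
            exact Finset.mem_product.2 ⟨Finset.mem_range.2 (Nat.mod_lt _ hpp.pos),
              Finset.mem_range.2 (Nat.mod_lt _ hW0)⟩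
          · intro u _ _
            exact mul_nonneg (hg _ _) (Finset.prod_nonneg fun q _ => hg _ _)
      _ = (∑ r ∈ range p, g p r) * ∑ r ∈ range W, ∏ q ∈ S, g q (r % q) := by
          rw [Finset.sum_product, Finset.sum_mul_sum]
      _ ≤ _ := by
          apply mul_le_mul_of_nonneg_left (ih hS')
          exact Finset.sum_nonneg fun r _ => hg _ _

/-- logarithmic means of periodic functions -/
lemma log_mean {W : ℕ} (hW : 0 < W) (f : ℕ → ℝ) (hf0 : ∀ b, 0 ≤ f b) (hf1 : ∀ b, f b ≤ 1)
    (hper : ∀ b, f (b % W) = f b) (N : ℕ) :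
    ∑ b ∈ Icc 1 N, f b / b ≤
      (1 + Real.log W) + (∑ r ∈ range W, f r) / W * (1 + Real.log N) := by
  classical
  have hWR : (0 : ℝ) < W := by exact_mod_cast hW
  have hharm : ∀ n : ℕ, ∑ b ∈ Icc 1 n, (1 : ℝ) / b ≤ 1 + Real.log n := by
    intro n
    have h := harmonic_le_one_add_log n
    rw [harmonic_eq_sum_Icc] at h
    push_cast at h
    simpa [one_div] using h
  have hsub : ∑ b ∈ Icc 1 N, f b / b ≤ ∑ b ∈ Icc 1 W, (1 : ℝ) / b +
      ∑ u ∈ Icc 1 N ×ˢ range W, (1 / (W : ℝ)) * (f u.2 / u.1) := by
    have h1 : ∑ b ∈ Icc 1 N, f b / b = ∑ b ∈ (Icc 1 N).filter (fun b => b < W), f b / b +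
        ∑ b ∈ (Icc 1 N).filter (fun b => ¬ b < W), f b / b :=
      (Finset.sum_filter_add_sum_filter_not _ _ _).symm
    rw [h1]
    apply add_le_add
    · calc ∑ b ∈ (Icc 1 N).filter (fun b => b < W), f b / b
          ≤ ∑ b ∈ (Icc 1 N).filter (fun b => b < W), (1 : ℝ) / b := by
            apply Finset.sum_le_sum
            intro b _
            exact div_le_div_of_nonneg_right (hf1 b) (Nat.cast_nonneg _)
        _ ≤ _ := by
            apply Finset.sum_le_sum_of_subset_of_nonneg
            · intro b hb
              obtain ⟨h2, h3⟩ := Finset.mem_filter.1 hb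
              rw [Finset.mem_Icc] at h2 ⊢
              omega
            · intro b _ _
              positivity
    · calc ∑ b ∈ (Icc 1 N).filter (fun b => ¬ b < W), f b / b
          ≤ ∑ b ∈ (Icc 1 N).filter (fun b => ¬ b < W),
              (fun u : ℕ × ℕ => (1 / (W : ℝ)) * (f u.2 / u.1)) (b / W, b % W) := by
            apply Finset.sum_le_sum
            intro b hb
            obtain ⟨h2, h3⟩ := Finset.mem_filter.1 hb
            simp only [hper]
            have h4 : 1 ≤ b / W := (Nat.one_le_div_iff hW).2 (not_lt.1 h3)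
            have h5 : ((b / W : ℕ) : ℝ) * W ≤ b := by exact_mod_cast Nat.div_mul_le_self b W
            have h6 : (0 : ℝ) < ((b / W : ℕ) : ℝ) := by exact_mod_cast h4
            have h7 : (1 / (W : ℝ)) * (f b / ((b / W : ℕ) : ℝ)) =
                f b / (((b / W : ℕ) : ℝ) * W) := by
              field_simp
            rw [h7]
            exact div_le_div_of_nonneg_left (hf0 b) (by positivity) h5
        _ = ∑ u ∈ ((Icc 1 N).filter (fun b => ¬ b < W)).image (fun b => (b / W, b % W)),
              (1 / (W : ℝ)) * (f u.2 / u.1) := by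
            rw [Finset.sum_image]
            intro a _ b _ hab
            simp only [Prod.mk.injEq] at hab
            rw [← Nat.div_add_mod a W, ← Nat.div_add_mod b W, hab.1, hab.2]
        _ ≤ _ := by
            apply Finset.sum_le_sum_of_subset_of_nonneg
            · intro u hu
              obtain ⟨b, hb, rfl⟩ := Finset.mem_image.1 hu
              obtain ⟨h2, h3⟩ := Finset.mem_filter.1 hb
              rw [Finset.mem_Icc] at h2
              refine Finset.mem_product.2 ⟨Finset.mem_Icc.2 ⟨?_, ?_⟩,
                Finset.mem_range.2 (Nat.mod_lt _ hW)⟩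
              · exact (Nat.one_le_div_iff hW).2 (not_lt.1 h3)
              · exact (Nat.div_le_self _ _).trans h2.2
            · intro u _ _
              have := hf0 u.2
              positivity
  refine hsub.trans ?_
  apply add_le_add (hharm W)
  rw [Finset.sum_product]
  have h8 : ∀ k ∈ Icc 1 N, ∑ r ∈ range W, (1 / (W : ℝ)) * (f (k, r).2 / ((k, r).1 : ℕ)) =
      (∑ r ∈ range W, f r) / W * (1 / k) := by
    intro k hk
    have hk0 : (0 : ℝ) < k := by exact_mod_cast (Finset.mem_Icc.1 hk).1
    simp only
    rw [← Finset.mul_sum, ← Finset.sum_div]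
    field_simp
  rw [Finset.sum_congr rfl h8, ← Finset.mul_sum]
  apply mul_le_mul_of_nonneg_left (hharm N)
  exact div_nonneg (Finset.sum_nonneg fun r _ => hf0 r) hWR.le

end Pool.Agent.Y525.QC
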