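import Mathlib

/-!
Quadratic residue covers (MP_74dd9d_nt): definitions and the covers by one prime `q ∣ c + 1`.
-/

set_option autoImplicit false

namespace Pool.Agent.Y525.QC

/-- the number `Δ_n(c, b) = (b c^n + (c - 1) / b)^2 + 4 c^n` -/
def Del (c b n : ℕ) : ℤ :=
  ((b : ℤ) * (c : ℤ) ^ n + (((c - 1) / b : ℕ) : ℤ)) ^ 2 + 4 * (c : ℤ) ^ n

/-- the Kronecker symbol `(D / q)` of a prime `q` is not `-1` -/
def KroneckerNe (D : ℤ) (q : ℕ) : Prop :=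
  (q = 2 ∧ D % 8 ≠ 3 ∧ D % 8 ≠ 5) ∨ (q ≠ 2 ∧ jacobiSym D q ≠ -1)

/-- `C` is an `ℓ`-QRC for the family `Δ_n(c, b)`: `C` is a finite set of primes, `ℓ` is the least
positive integer with `c ^ ℓ ≡ 1` modulo all `q ∈ C`, and for every `n` the Kronecker symbol
`(Δ_n(c, b) / q)` is not `-1` for some `q ∈ C` -/
def IsQRC (c b ℓ : ℕ) (C : Finset ℕ) : Prop :=
  (∀ q ∈ C, q.Prime) ∧ 0 < ℓ ∧ (∀ q ∈ C, c ^ ℓ ≡ 1 [MOD q]) ∧
    (∀ m : ℕ, 0 < m → m < ℓ → ∃ q ∈ C, ¬ (c ^ m ≡ 1 [MOD q])) ∧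
    ∀ n : ℕ, ∃ q ∈ C, KroneckerNe (Del c b n) q

/-- a prime `q ≡ 1` modulo `4 (b^4 + 4)` which divides `c + 1` is a `2`-QRC -/
theorem cover {c b q : ℕ} (hc : c.Prime) (hb : 1 ≤ b) (hbc : b ∣ c - 1) (hq : q.Prime)
    (hq1 : q % (4 * (b ^ 4 + 4)) = 1) (hqc : q ∣ c + 1) : IsQRC c b 2 {q} := by
  have hc2 := hc.two_le
  have hq2 := hq.two_le
  have hqbig : 4 * (b ^ 4 + 4) < q := by
    by_contra h
    have h1 : q ≤ 4 * (b ^ 4 + 4) := by omega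
    rcases Nat.lt_or_eq_of_le h1 with h2 | h2
    · rw [Nat.mod_eq_of_lt h2] at hq1
      omega
    · rw [h2, Nat.mod_self] at hq1
      omega
  have hb4 : b ≤ b ^ 4 := Nat.le_self_pow (by norm_num) b
  have hq3 : 2 < q := by omega
  have hqodd : Odd q := hq.odd_of_ne_two (by omega)
  obtain ⟨a, ha⟩ := hbc
  have hdiv : (c - 1) / b = a := by
    rw [ha]
    exact Nat.mul_div_cancel_left a hb
  have hab : (b : ℤ) * a = (c : ℤ) - 1 := by
    have : b * a = c - 1 := ha.symm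
    have h2 : ((b * a : ℕ) : ℤ) = ((c - 1 : ℕ) : ℤ) := by rw [this]
    push_cast [Nat.cast_sub (show 1 ≤ c by omega)] at h2
    linarith
  have hcz : (q : ℤ) ∣ (c : ℤ) + 1 := by exact_mod_cast hqc
  have hcop : IsCoprime (b : ℤ) (q : ℤ) := by
    rw [Nat.isCoprime_iff_coprime]
    rw [Nat.coprime_comm]
    rw [hq.coprime_iff_not_dvd]
    intro h
    have := Nat.le_of_dvd hb h
    omega
  refine ⟨by simpa using hq, by norm_num, ?_, ?_, ?_⟩
  · intro q' hq'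
    rw [Finset.mem_singleton] at hq'
    subst hq'
    have h1 : (q' : ℤ) ∣ (c : ℤ) ^ 2 - 1 := by
      have : (c : ℤ) ^ 2 - 1 = ((c : ℤ) + 1) * (c - 1) := by ring
      rw [this]
      exact hcz.mul_right _
    have h2 : ((c ^ 2 : ℕ) : ℤ) ≡ ((1 : ℕ) : ℤ) [ZMOD (q' : ℤ)] := by
      rw [Int.modEq_comm, Int.modEq_iff_dvd]
      push_cast
      exact h1
    exact (Int.natCast_modEq_iff).1 h2
  · intro m hm0 hm2
    have hm : m = 1 := by omega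
    subst hm
    refine ⟨q, by simp, ?_⟩
    rw [pow_one]
    intro h
    have h1 : ((c : ℕ) : ℤ) ≡ ((1 : ℕ) : ℤ) [ZMOD (q : ℤ)] := (Int.natCast_modEq_iff).2 h
    rw [Int.modEq_comm, Int.modEq_iff_dvd] at h1
    push_cast at h1
    have h2 : (q : ℤ) ∣ 2 := by
      have : (2 : ℤ) = ((c : ℤ) + 1) - (c - 1) := by ring
      rw [this]
      exact dvd_sub hcz h1
    have h3 : q ∣ 2 := by exact_mod_cast h2
    have := Nat.le_of_dvd (by norm_num) h3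
    omega
  · intro n
    refine ⟨q, by simp, Or.inr ⟨by omega, ?_⟩⟩
    -- the congruence
    have hcn : (q : ℤ) ∣ ((c : ℤ) ^ n) ^ 2 - 1 := by
      have h1 : (c : ℤ) ^ 2 - 1 ∣ ((c : ℤ) ^ 2) ^ n - 1 ^ n := sub_dvd_pow_sub_pow _ _ n
      rw [one_pow] at h1
      have h2 : ((c : ℤ) ^ n) ^ 2 - 1 = ((c : ℤ) ^ 2) ^ n - 1 := by ring
      rw [h2]
      refine dvd_trans ?_ h1
      have : (c : ℤ) ^ 2 - 1 = ((c : ℤ) + 1) * (c - 1) := by ring
      rw [this]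
      exact hcz.mul_right _
    have hkey : (q : ℤ) ∣ (b : ℤ) ^ 2 * Del c b n - ((b : ℤ) ^ 4 + 4) := by
      unfold Del
      rw [hdiv]
      obtain ⟨u, hu⟩ := hcn
      obtain ⟨w, hw⟩ := hcz
      have h5 : (b : ℤ) ^ 2 * (((b : ℤ) * (c : ℤ) ^ n + (a : ℤ)) ^ 2 + 4 * (c : ℤ) ^ n) -
          ((b : ℤ) ^ 4 + 4) = (b : ℤ) ^ 4 * (((c : ℤ) ^ n) ^ 2 - 1) +
          2 * (b : ℤ) ^ 2 * (c : ℤ) ^ n * ((b : ℤ) * a + 2) + (((b : ℤ) * a) ^ 2 - 4) := by ring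
      rw [h5, hab, hu]
      have h6 : (c : ℤ) - 1 + 2 = q * w := by linarith
      have h7 : ((c : ℤ) - 1) ^ 2 - 4 = (q * w) * (c - 3) := by
        rw [← hw]
        ring
      rw [h6, h7]
      refine dvd_add (dvd_add ?_ ?_) ?_
      · exact Dvd.dvd.mul_left (Dvd.intro _ rfl) _
      · exact Dvd.dvd.mul_left (Dvd.intro _ rfl) _
      · rw [mul_assoc]
        exact Dvd.intro _ rfl
    have h8 : jacobiSym ((b : ℤ) ^ 2 * Del c b n) q = jacobiSym ((b : ℤ) ^ 4 + 4) q := by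
      apply jacobiSym.mod_left'
      rw [← Int.ModEq, Int.modEq_comm, Int.modEq_iff_dvd]
      exact hkey
    have h9 : jacobiSym ((b : ℤ) ^ 4 + 4) q = 1 := by
      rw [jacobiSym.mod_right _ hqodd]
      have h10 : ((b : ℤ) ^ 4 + 4).natAbs = b ^ 4 + 4 := by
        have : ((b : ℤ) ^ 4 + 4) = ((b ^ 4 + 4 : ℕ) : ℤ) := by push_cast; rfl
        rw [this, Int.natAbs_natCast]
      rw [h10, hq1]
      exact jacobiSym.one_right _
    rw [jacobiSym.mul_left, h9] at h8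
    have h11 : jacobiSym ((b : ℤ) ^ 2) q = 1 := by
      rw [jacobiSym.pow_left]
      exact jacobiSym.sq_one (by
        rw [← Int.isCoprime_iff_gcd_eq_one]
        exact hcop)
    rw [h11, one_mul] at h8
    rw [h8]
    norm_num

end Pool.Agent.Y525.QC
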