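import Pool.Agent.TH423.SH.Stm

/-!
Primes `c` such that `c + 1` has no prime factor `≡ 1 (mod M)`: upper bound `x / (log x)^(1 + δ)`, from
the upper bound sieve and the divergence of the sum of the reciprocals of the primes `≡ 1 (mod M)`
of the starting library.
-/

set_option autoImplicit false

open Finset

namespace Pool.Agent.Y525.QC

open Pool.Agent.TH423.SH

/-- sums of reciprocals along the scale `2 ^ 2 ^ J` -/
lemma sum_low {M t₀ j₀ : ℕ} {s : ℝ}
    (h : ∀ t : ℕ, t₀ ≤ t →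
      s ≤ ∑ q ∈ (Ioc t (t ^ 2)).filter (fun q => q.Prime ∧ q % M = 1 % M), (1 : ℝ) / q)
    (hj : t₀ ≤ 2 ^ 2 ^ j₀) (J : ℕ) (hJ : j₀ ≤ J) :
    s * ((J : ℝ) - j₀) ≤ ∑ q ∈ (Ioc (2 ^ 2 ^ j₀) (2 ^ 2 ^ J)).filter
      (fun q => q.Prime ∧ q % M = 1 % M), (1 : ℝ) / q := by
  induction J, hJ using Nat.le_induction with
  | base => simp
  | succ J hJ ih =>
    have hmono : ∀ i k : ℕ, i ≤ k → 2 ^ 2 ^ i ≤ 2 ^ 2 ^ k := fun i k hik =>
      Nat.pow_le_pow_right (by norm_num) (Nat.pow_le_pow_right (by norm_num) hik)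
    have h1 := h (2 ^ 2 ^ J) (hj.trans (hmono _ _ hJ))
    have h2 : (2 ^ 2 ^ J) ^ 2 = 2 ^ 2 ^ (J + 1) := by rw [← pow_mul, ← pow_succ]
    rw [h2] at h1
    have h3 : Ioc (2 ^ 2 ^ j₀) (2 ^ 2 ^ (J + 1)) =
        Ioc (2 ^ 2 ^ j₀) (2 ^ 2 ^ J) ∪ Ioc (2 ^ 2 ^ J) (2 ^ 2 ^ (J + 1)) := by
      rw [Finset.Ioc_union_Ioc_eq_Ioc (hmono _ _ hJ) (hmono _ _ (Nat.le_succ J))]
    rw [h3, Finset.filter_union, Finset.sum_union]
    · push_cast
      linarith
    · apply Finset.disjoint_filter_filter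
      rw [Finset.disjoint_left]
      intro a ha hb
      rw [Finset.mem_Ioc] at ha hb
      exact absurd hb.1 (not_lt.2 ha.2)

/-- the excluded class modulo `p` -/
def Om (M p : ℕ) : Finset ℕ := if p % M = 1 % M then {p - 1} else ∅

lemma Om_card (M p : ℕ) : (Om M p).card ≤ 1 := by
  unfold Om
  split_ifs <;> simp

lemma prod_bound {M m₀ j₀ J : ℕ} {s : ℝ} (hm : 0 < m₀) (hmj : m₀ ≤ 2 ^ 2 ^ j₀)
    (hsum : s * ((J : ℝ) - j₀) ≤ ∑ q ∈ (Ioc (2 ^ 2 ^ j₀) (2 ^ 2 ^ J)).filter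
      (fun q => q.Prime ∧ q % M = 1 % M), (1 : ℝ) / q) :
    ∏ p ∈ PS m₀ (2 ^ 2 ^ J), (1 - ((Om M p).card : ℝ) / ((p : ℝ) - 1)) ≤
      Real.exp (-(s * ((J : ℝ) - j₀))) := by
  have hp2 : ∀ p ∈ PS m₀ (2 ^ 2 ^ J), (1 : ℝ) ≤ (p : ℝ) - 1 := by
    intro p hp
    have h1 := (Finset.mem_filter.1 hp).2.1.two_le
    have h2 : (2 : ℝ) ≤ p := by exact_mod_cast h1
    linarith
  have hc : ∀ p, ((Om M p).card : ℝ) ≤ 1 := fun p => by exact_mod_cast Om_card M p
  calc ∏ p ∈ PS m₀ (2 ^ 2 ^ J), (1 - ((Om M p).card : ℝ) / ((p : ℝ) - 1))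
      ≤ ∏ p ∈ PS m₀ (2 ^ 2 ^ J), Real.exp (-(((Om M p).card : ℝ) / ((p : ℝ) - 1))) := by
        apply Finset.prod_le_prod
        · intro p hp
          have := hp2 p hp
          have h3 : ((Om M p).card : ℝ) / ((p : ℝ) - 1) ≤ 1 := by
            rw [div_le_one (by linarith)]
            exact (hc p).trans this
          linarith
        · intro p hp
          exact Real.one_sub_le_exp_neg _
    _ = Real.exp (-∑ p ∈ PS m₀ (2 ^ 2 ^ J), ((Om M p).card : ℝ) / ((p : ℝ) - 1)) := by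
        rw [← Finset.sum_neg_distrib, Real.exp_sum]
    _ ≤ Real.exp (-(s * ((J : ℝ) - j₀))) := by
        apply Real.exp_le_exp.2
        apply neg_le_neg
        refine hsum.trans ?_
        calc ∑ q ∈ (Ioc (2 ^ 2 ^ j₀) (2 ^ 2 ^ J)).filter (fun q => q.Prime ∧ q % M = 1 % M),
              (1 : ℝ) / q
            ≤ ∑ q ∈ (Ioc (2 ^ 2 ^ j₀) (2 ^ 2 ^ J)).filter (fun q => q.Prime ∧ q % M = 1 % M),
              ((Om M q).card : ℝ) / ((q : ℝ) - 1) := by
              apply Finset.sum_le_sum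
              intro q hq
              obtain ⟨hq1, hq2, hq3⟩ := Finset.mem_filter.1 hq
              have h1 : (Om M q).card = 1 := by
                unfold Om
                rw [if_pos hq3]
                simp
              rw [h1, Nat.cast_one]
              have h2 : (2 : ℝ) ≤ q := by exact_mod_cast hq2.two_le
              apply one_div_le_one_div_of_le <;> linarith
          _ ≤ _ := by
              apply Finset.sum_le_sum_of_subset_of_nonneg
              · intro q hq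
                obtain ⟨hq1, hq2, hq3⟩ := Finset.mem_filter.1 hq
                rw [Finset.mem_Ioc] at hq1
                refine Finset.mem_filter.2 ⟨Finset.mem_Icc.2 ⟨hq2.one_le, hq1.2⟩, hq2, ?_⟩
                intro hd
                have := Nat.le_of_dvd hm hd
                omega
              · intro p hp _
                have := hp2 p hp
                exact div_nonneg (Nat.cast_nonneg _) (by linarith)

/-- the final inequality -/
lemma final {lx x D s δ Pr P E jJ j0 m0 φ N : ℝ} (hD : 1 ≤ D) (hs : 0 < s)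
    (hδs : δ ≤ s) (hδ1 : δ ≤ 1) (hx : 0 < x) (hlx : 2 * D ≤ lx) (hlx2 : lx ^ 2 ≤ 4 * x)
    (hJ : lx / (2 * D) ≤ Real.exp jJ)
    (hPr : Pr ≤ Real.exp (-(s * (jJ - j0)))) (hP0 : 0 ≤ P) 
    (hP : P ≤ (Real.log 4 + 1) * x / lx) (hE : E = x / lx ^ 2) (hm0 : 0 ≤ m0) (hφ : φ ≤ m0)
    (hN : N ≤ m0 + (2 * P * Pr + φ * E)) :
    N ≤ (2 * (Real.log 4 + 1) * Real.exp (s * j0) * (2 * D) ^ δ + 5 * m0) * x / lx ^ (1 + δ) := by
  have hlx1 : 1 ≤ lx := by linarith
  have hlx0 : 0 < lx := by linarith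
  have hlog4 : 0 ≤ Real.log 4 := Real.log_nonneg (by norm_num)
  have hpow0 : 0 < lx ^ (1 + δ) := Real.rpow_pos_of_pos hlx0 _
  have hpow : lx ^ (1 + δ) = lx * lx ^ δ := by
    rw [Real.rpow_add hlx0, Real.rpow_one]
  have hpow2 : lx ^ (1 + δ) ≤ lx ^ 2 := by
    have h := Real.rpow_le_rpow_of_exponent_le hlx1 (show 1 + δ ≤ 2 by linarith)
    rwa [Real.rpow_two] at h
  set y := lx / (2 * D) with hy
  have hy1 : 1 ≤ y := by
    rw [hy, le_div_iff₀ (by linarith)]
    linarith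
  have hy0 : 0 < y := by linarith
  have hPr2 : Pr ≤ Real.exp (s * j0) * ((2 * D) ^ δ / lx ^ δ) := by
    refine hPr.trans ?_
    have h1 : -(s * (jJ - j0)) = s * j0 + -(s * jJ) := by ring
    rw [h1, Real.exp_add]
    apply mul_le_mul_of_nonneg_left _ (Real.exp_pos _).le
    have h2 : Real.log y ≤ jJ := by
      rw [← Real.log_exp jJ]
      exact Real.log_le_log hy0 hJ
    have h3 : 0 ≤ Real.log y := Real.log_nonneg hy1
    have h4 : -(s * jJ) ≤ Real.log y * (-δ) := by nlinarith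
    refine (Real.exp_le_exp.2 h4).trans ?_
    rw [← Real.rpow_def_of_pos hy0, Real.rpow_neg hy0.le, hy, Real.div_rpow hlx0.le (by linarith),
      inv_div]
  have h1 : 2 * P * Pr ≤ 2 * (Real.log 4 + 1) * Real.exp (s * j0) * (2 * D) ^ δ * x /
      lx ^ (1 + δ) := by
    have hq0 : 0 ≤ Real.exp (s * j0) * ((2 * D) ^ δ / lx ^ δ) := by positivity
    calc 2 * P * Pr ≤ 2 * P * (Real.exp (s * j0) * ((2 * D) ^ δ / lx ^ δ)) := by
          apply mul_le_mul_of_nonneg_left hPr2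
          linarith
      _ ≤ 2 * ((Real.log 4 + 1) * x / lx) * (Real.exp (s * j0) * ((2 * D) ^ δ / lx ^ δ)) := by
          apply mul_le_mul_of_nonneg_right _ hq0
          linarith
      _ = _ := by
          rw [hpow]
          field_simp
  have h2 : φ * E ≤ m0 * x / lx ^ (1 + δ) := by
    rw [hE]
    calc φ * (x / lx ^ 2) ≤ m0 * (x / lx ^ 2) := by
          apply mul_le_mul_of_nonneg_right hφ
          positivity
      _ ≤ m0 * (x / lx ^ (1 + δ)) := by
          apply mul_le_mul_of_nonneg_left _ hm0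
          exact div_le_div_of_nonneg_left hx.le hpow0 hpow2
      _ = _ := by ring
  have h3 : m0 ≤ 4 * m0 * x / lx ^ (1 + δ) := by
    rw [le_div_iff₀ hpow0]
    have : lx ^ (1 + δ) ≤ 4 * x := hpow2.trans hlx2
    nlinarith
  have h4 : (2 * (Real.log 4 + 1) * Real.exp (s * j0) * (2 * D) ^ δ + 5 * m0) * x / lx ^ (1 + δ) =
      2 * (Real.log 4 + 1) * Real.exp (s * j0) * (2 * D) ^ δ * x / lx ^ (1 + δ) +
      m0 * x / lx ^ (1 + δ) + 4 * m0 * x / lx ^ (1 + δ) := by ring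
  rw [h4]
  linarith

/-- the primes `c ≤ x` such that `c + 1` has no prime factor `≡ 1 (mod M)` -/
theorem sieve (H : PSU) (S : SIG) (M : ℕ) (hM : 1 < M) :
    ∃ δ K : ℝ, 0 < δ ∧ ∃ X : ℕ, ∀ x : ℕ, X ≤ x → ∀ F : Finset ℕ,
      (∀ c ∈ F, c ≤ x ∧ c.Prime ∧ ∀ q : ℕ, q.Prime → q % M = 1 → ¬ q ∣ c + 1) →
      (F.card : ℝ) ≤ K * x / (Real.log x) ^ (1 + δ) := by
  classical
  obtain ⟨C, hC, H⟩ := H
  obtain ⟨s, hs, t₀, ht⟩ := S M hM.le
  obtain ⟨m₀, hm₀⟩ : ∃ m₀ : ℕ, m₀ = (C * (1 + 1)).factorial := ⟨_, rfl⟩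
  have hm0 : 1 ≤ m₀ := by rw [hm₀]; exact Nat.factorial_pos _
  obtain ⟨X₀, hX⟩ := H 1 (C * (1 + 1)) m₀ 2 le_rfl hm0
    (fun p hp hpC => by rw [hm₀]; exact (hp.dvd_factorial).2 hpC)
  obtain ⟨j₀, hj1, hj2⟩ : ∃ j₀ : ℕ, t₀ ≤ 2 ^ 2 ^ j₀ ∧ m₀ ≤ 2 ^ 2 ^ j₀ := by
    have h1 : t₀ + m₀ < 2 ^ (t₀ + m₀) := Nat.lt_two_pow_self
    have h2 : 2 ^ (t₀ + m₀) < 2 ^ 2 ^ (t₀ + m₀) := Nat.lt_two_pow_self
    exact ⟨t₀ + m₀, by omega, by omega⟩
  obtain ⟨D, hDdef⟩ : ∃ D : ℕ, D = C * (C * (1 + 1)) * 3 := ⟨_, rfl⟩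
  have hD : 1 ≤ D := by
    rw [hDdef]
    have : 0 < C * (C * (1 + 1)) * 3 := by positivity
    omega
  obtain ⟨Y, hY⟩ := Filter.eventually_atTop.1
    (Chebyshev.eventually_primeCounting_le (ε := 1) one_pos)
  obtain ⟨X, hXdef⟩ : ∃ X : ℕ, X = max (max X₀ ⌈Y⌉₊)
      (max (2 ^ (2 ^ j₀ * D)) (max 1 ⌈Real.exp (2 * D)⌉₊)) := ⟨_, rfl⟩
  refine ⟨min s 1, 2 * (Real.log 4 + 1) * Real.exp (s * j₀) * (2 * D) ^ (min s 1) + 5 * m₀,
    lt_min hs one_pos, X, fun x hx F hF => ?_⟩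
  have hx1 : X₀ ≤ x := ((le_max_left _ _).trans ((le_max_left _ _).trans hXdef.ge)).trans hx
  have hx2 : ⌈Y⌉₊ ≤ x := ((le_max_right _ _).trans ((le_max_left _ _).trans hXdef.ge)).trans hx
  have hx3 : 2 ^ (2 ^ j₀ * D) ≤ x :=
    ((le_max_left _ _).trans ((le_max_right _ _).trans hXdef.ge)).trans hx
  have hx4 : 1 ≤ x := ((le_max_left _ _).trans ((le_max_right _ _).trans
    ((le_max_right _ _).trans hXdef.ge))).trans hx
  have hx5 : ⌈Real.exp (2 * D)⌉₊ ≤ x := ((le_max_right _ _).trans ((le_max_right _ _).trans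
    ((le_max_right _ _).trans hXdef.ge))).trans hx
  have hxR : (0 : ℝ) < x := by exact_mod_cast hx4
  -- the scales
  obtain ⟨L, hL⟩ : ∃ L : ℕ, L = Nat.log 2 x := ⟨_, rfl⟩
  obtain ⟨J, hJ⟩ : ∃ J : ℕ, J = Nat.log 2 (L / D) := ⟨_, rfl⟩
  have hL1 : 2 ^ L ≤ x := by rw [hL]; exact Nat.pow_log_le_self 2 (by omega)
  have hL2 : x < 2 ^ (L + 1) := by rw [hL]; exact Nat.lt_pow_succ_log_self one_lt_two x
  have hL3 : 2 ^ j₀ * D ≤ L := by rw [hL]; exact Nat.le_log_of_pow_le one_lt_two hx3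
  have hLD : 2 ^ j₀ ≤ L / D := (Nat.le_div_iff_mul_le (by omega)).2 hL3
  have hLD0 : L / D ≠ 0 := by
    have : 0 < 2 ^ j₀ := by positivity
    omega
  have hJ1 : 2 ^ J ≤ L / D := by rw [hJ]; exact Nat.pow_log_le_self 2 hLD0
  have hJ0 : j₀ ≤ J := by rw [hJ]; exact Nat.le_log_of_pow_le one_lt_two hLD
  have hJ2 : L / D < 2 ^ (J + 1) := by rw [hJ]; exact Nat.lt_pow_succ_log_self one_lt_two _
  have hJ3 : L < 2 ^ (J + 1) * D := (Nat.div_lt_iff_lt_mul (by omega)).1 hJ2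
  have hv : ((2 ^ 2 ^ J) ^ (C * (C * (1 + 1)))) ^ 3 ≤ x := by
    have h1 : ((2 ^ 2 ^ J) ^ (C * (C * (1 + 1)))) ^ 3 = 2 ^ (2 ^ J * D) := by
      rw [← pow_mul, ← pow_mul, hDdef]
    rw [h1]
    refine le_trans (Nat.pow_le_pow_right (by norm_num) ?_) hL1
    calc 2 ^ J * D ≤ L / D * D := Nat.mul_le_mul_right _ hJ1
      _ ≤ L := Nat.div_mul_le_self _ _
  have hprod := prod_bound (M := M) (J := J) hm0 hj2 (sum_low ht hj1 J hJ0)
  -- the classes
  set A := (Finset.range m₀).filter (fun a => m₀.Coprime a) with hA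
  set T : ℕ → Finset ℕ := fun a => (Ioc 0 x).filter (fun q => q.Prime ∧ q % m₀ = a % m₀ ∧
    ∀ p ∈ PS m₀ (2 ^ 2 ^ J), q % p ∉ Om M p) with hT
  have hTa : ∀ a ∈ A, ((T a).card : ℝ) ≤ (1 + (1 / 2 : ℝ) ^ (C * (1 + 1))) *
      ((((Ioc 0 x).filter Nat.Prime).card : ℝ) / Nat.totient m₀) *
        ∏ p ∈ PS m₀ (2 ^ 2 ^ J), (1 - ((Om M p).card : ℝ) / ((p : ℝ) - 1)) +
      x / Real.log x ^ 2 := by
    intro a ha
    have h := hX 0 x J a hx1 (Nat.zero_le _) hv ((Finset.mem_filter.1 ha).2.symm) (Om M) (by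
      intro p hp
      have hp2 := (Finset.mem_filter.1 hp).2.1.two_le
      refine ⟨Om_card M p, ?_, ?_⟩
      · unfold Om
        split_ifs
        · rw [Finset.mem_singleton]
          omega
        · simp
      · unfold Om
        intro c hc
        split_ifs at hc
        · rw [Finset.mem_singleton] at hc
          omega
        · simp at hc)
    convert h using 3
  have hsub : F ⊆ Ioc 0 m₀ ∪ A.biUnion T := by
    intro c hc
    obtain ⟨hcx, hcp, hcq⟩ := hF c hc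
    rw [Finset.mem_union]
    by_cases hcm : c ≤ m₀
    · exact Or.inl (Finset.mem_Ioc.2 ⟨hcp.pos, hcm⟩)
    · right
      rw [Finset.mem_biUnion]
      refine ⟨c % m₀, ?_, ?_⟩
      · rw [hA, Finset.mem_filter, Finset.mem_range]
        refine ⟨Nat.mod_lt _ (by omega), ?_⟩
        have h1 : m₀.Coprime c := by
          rw [Nat.coprime_comm, hcp.coprime_iff_not_dvd]
          intro hd
          have := Nat.le_of_dvd (by omega) hd
          omega
        unfold Nat.Coprime at h1 ⊢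
        rw [Nat.gcd_comm, ← Nat.gcd_rec]
        exact h1
      · simp only [hT, Finset.mem_filter, Finset.mem_Ioc]
        refine ⟨⟨hcp.pos, hcx⟩, hcp, (Nat.mod_mod _ _).symm, ?_⟩
        intro p hp hmem
        have hpp := (Finset.mem_filter.1 hp).2.1
        unfold Om at hmem
        split_ifs at hmem with hpM
        · rw [Finset.mem_singleton] at hmem
          rw [Nat.mod_eq_of_lt hM] at hpM
          apply hcq p hpp hpM
          have h2 := hpp.two_le
          have h3 := Nat.div_add_mod c p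
          refine ⟨c / p + 1, ?_⟩
          rw [mul_add, mul_one]
          omega
        · simp at hmem
  have hcard : (F.card : ℝ) ≤ m₀ + ∑ a ∈ A, ((T a).card : ℝ) := by
    have h1 : F.card ≤ m₀ + ∑ a ∈ A, (T a).card := by
      calc F.card ≤ (Ioc 0 m₀ ∪ A.biUnion T).card := Finset.card_le_card hsub
        _ ≤ (Ioc 0 m₀).card + (A.biUnion T).card := Finset.card_union_le _ _
        _ ≤ m₀ + ∑ a ∈ A, (T a).card := by
            gcongr
            · simp
            · exact Finset.card_biUnion_le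
    exact_mod_cast h1
  have hAcard : A.card = m₀.totient := (Nat.totient_eq_card_coprime m₀).symm
  have hφ0 : (0 : ℝ) < Nat.totient m₀ := by exact_mod_cast Nat.totient_pos.2 hm0
  set P : ℝ := (((Ioc 0 x).filter Nat.Prime).card : ℝ) with hPdef
  set Q : ℝ := ∏ p ∈ PS m₀ (2 ^ 2 ^ J), (1 - ((Om M p).card : ℝ) / ((p : ℝ) - 1)) with hQdef
  have hP0 : 0 ≤ P := Nat.cast_nonneg _
  have hQ0 : 0 ≤ Q := by
    apply Finset.prod_nonneg
    intro p hp
    have h1 := (Finset.mem_filter.1 hp).2.1.two_le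
    have h2 : (2 : ℝ) ≤ p := by exact_mod_cast h1
    have h4 : ((Om M p).card : ℝ) ≤ 1 := by exact_mod_cast Om_card M p
    have h3 : ((Om M p).card : ℝ) / ((p : ℝ) - 1) ≤ 1 := by
      rw [div_le_one (by linarith)]
      linarith
    linarith
  have hN : (F.card : ℝ) ≤ m₀ + (2 * P * Q + (Nat.totient m₀ : ℝ) * (x / Real.log x ^ 2)) := by
    have h1 : ∑ a ∈ A, ((T a).card : ℝ) ≤ ∑ a ∈ A, (2 * (P / Nat.totient m₀) * Q +
        x / Real.log x ^ 2) := by
      apply Finset.sum_le_sum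
      intro a ha
      refine (hTa a ha).trans ?_
      have h2 : (1 + (1 / 2 : ℝ) ^ (C * (1 + 1))) ≤ 2 := by
        have : (1 / 2 : ℝ) ^ (C * (1 + 1)) ≤ 1 := pow_le_one₀ (by norm_num) (by norm_num)
        linarith
      have h3 : 0 ≤ P / Nat.totient m₀ * Q := by positivity
      have h4 : (1 + (1 / 2 : ℝ) ^ (C * (1 + 1))) * (P / Nat.totient m₀) * Q ≤
          2 * (P / Nat.totient m₀) * Q := by
        rw [mul_assoc, mul_assoc]
        exact mul_le_mul_of_nonneg_right h2 h3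
      linarith
    rw [Finset.sum_const, nsmul_eq_mul, hAcard] at h1
    have h5 : (Nat.totient m₀ : ℝ) * (2 * (P / Nat.totient m₀) * Q + x / Real.log x ^ 2) =
        2 * P * Q + (Nat.totient m₀ : ℝ) * (x / Real.log x ^ 2) := by
      field_simp
    rw [h5] at h1
    linarith
  -- sizes
  have hxexp : Real.exp (2 * D) ≤ x := (Nat.le_ceil _).trans (by exact_mod_cast hx5)
  have hlx : 2 * (D : ℝ) ≤ Real.log x := by
    rw [← Real.log_exp (2 * (D : ℝ))]
    exact Real.log_le_log (Real.exp_pos _) hxexp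
  have hDR : (1 : ℝ) ≤ D := by exact_mod_cast hD
  have hlx2 : Real.log x ^ 2 ≤ 4 * x := by
    have h1 : Real.log x = 2 * Real.log (Real.sqrt x) := by
      rw [Real.log_sqrt hxR.le]
      ring
    have h2 : Real.log (Real.sqrt x) ≤ Real.sqrt x - 1 :=
      Real.log_le_sub_one_of_pos (Real.sqrt_pos.2 hxR)
    have h3 : Real.sqrt x ^ 2 = x := Real.sq_sqrt hxR.le
    have h4 : 0 ≤ Real.log (Real.sqrt x) := by linarith
    have h5 : 0 ≤ Real.sqrt x := Real.sqrt_nonneg _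
    rw [h1]
    nlinarith
  have hJexp : Real.log x / (2 * D) ≤ Real.exp (J : ℝ) := by
    have h1 : Real.log x ≤ (L : ℝ) + 1 := by
      have h2 : (x : ℝ) ≤ 2 ^ (L + 1) := by exact_mod_cast hL2.le
      have h3 : Real.log x ≤ Real.log (2 ^ (L + 1)) := Real.log_le_log hxR h2
      rw [Real.log_pow] at h3
      have h4 : Real.log 2 ≤ 1 := by
        have := Real.log_two_lt_d9
        linarith
      push_cast at h3
      have h5 : ((L : ℝ) + 1) * Real.log 2 ≤ ((L : ℝ) + 1) * 1 :=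
        mul_le_mul_of_nonneg_left h4 (by positivity)
      linarith
    have h6 : (L : ℝ) + 1 ≤ 2 ^ (J + 1) * D := by exact_mod_cast hJ3
    have h7 : (2 : ℝ) ^ J ≤ Real.exp (J : ℝ) := by
      have h8 : Real.exp (J : ℝ) = Real.exp 1 ^ J := by rw [← Real.exp_nat_mul, mul_one]
      rw [h8]
      apply pow_le_pow_left₀ (by norm_num)
      have := Real.exp_one_gt_d9
      linarith
    rw [div_le_iff₀ (by linarith)]
    calc Real.log x ≤ 2 ^ (J + 1) * D := h1.trans h6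
      _ = 2 ^ J * (2 * D) := by ring
      _ ≤ Real.exp (J : ℝ) * (2 * D) := by
          apply mul_le_mul_of_nonneg_right h7
          linarith
  have hPle : P ≤ (Real.log 4 + 1) * x / Real.log x := by
    have h1 := hY (x : ℝ) ((Nat.le_ceil Y).trans (by exact_mod_cast hx2))
    rw [Nat.floor_natCast] at h1
    refine le_trans ?_ h1
    rw [hPdef]
    have h2 : ((Ioc 0 x).filter Nat.Prime).card ≤ Nat.primeCounting x := by
      rw [Nat.primeCounting, Nat.primeCounting', Nat.count_eq_card_filter_range]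
      apply Finset.card_le_card
      intro p hp
      obtain ⟨h3, h4⟩ := Finset.mem_filter.1 hp
      rw [Finset.mem_Ioc] at h3
      exact Finset.mem_filter.2 ⟨Finset.mem_range.2 (by omega), h4⟩
    exact_mod_cast h2
  have hφle : (Nat.totient m₀ : ℝ) ≤ m₀ := by exact_mod_cast Nat.totient_le m₀
  exact final hDR hs (min_le_left _ _) (min_le_right _ _) hxR hlx hlx2 hJexp hprod hP0 hPle rfl
    (Nat.cast_nonneg _) hφle hN

end Pool.Agent.Y525.QC
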