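import Pool.Agent.TH423.SH.PSUP
import Pool.Agent.TH423.SH.FLLP
import Pool.Agent.TH423.SH.SIGP
import Pool.Agent.Y525.QC.Defs
import Pool.Agent.Y525.QC.Sieve

/-!
Quadratic residue covers for almost all primes `c ≡ 1 (mod b)`.
-/

set_option autoImplicit false

namespace Pool.Agent.Y525.QC

open Pool.Agent.TH423.SH

theorem main (b : ℕ) (hb : 1 ≤ b) : ∃ δ K : ℝ, 0 < δ ∧ ∃ X : ℕ, ∀ x : ℕ, X ≤ x →
    (Set.ncard {c : ℕ | c ≤ x ∧ c.Prime ∧ b ∣ c - 1 ∧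
      ¬ ∃ q : ℕ, q.Prime ∧ q ∣ c + 1 ∧ IsQRC c b 2 {q}} : ℝ) ≤
        K * x / (Real.log x) ^ (1 + δ) := by
  obtain ⟨δ, K, hδ, X, h⟩ := sieve (psu fll) sig (4 * (b ^ 4 + 4)) (by omega)
  refine ⟨δ, K, hδ, X, fun x hx => ?_⟩
  have hfin : {c : ℕ | c ≤ x ∧ c.Prime ∧ b ∣ c - 1 ∧
      ¬ ∃ q : ℕ, q.Prime ∧ q ∣ c + 1 ∧ IsQRC c b 2 {q}}.Finite :=
    (Set.finite_Iic x).subset fun c hc => hc.1
  rw [Set.ncard_eq_toFinset_card _ hfin]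
  apply h x hx
  intro c hc
  rw [Set.Finite.mem_toFinset] at hc
  obtain ⟨h1, h2, h3, h4⟩ := hc
  exact ⟨h1, h2, fun q hq hq1 hqc => h4 ⟨q, hq, hqc, cover h2 hb h3 hq hq1 hqc⟩⟩

end Pool.Agent.Y525.QC
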