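import Pool.Agent.Y525.QC.Defs

/-!
Covers by one prime factor of `c - 1`.
-/

set_option autoImplicit false

open Finset

namespace Pool.Agent.Y525.QC

/-- the prime `p` does not divide `b` and `b ^ 2 + 4` is a nonzero square modulo `p` -/
def Gd (b p : ℕ) : Prop := ¬ p ∣ b ∧ jacobiSym ((b : ℤ) ^ 2 + 4) p = 1

lemma Gd_mod (b p : ℕ) : Gd (b % p) p ↔ Gd b p := by
  unfold Gd
  have h1 : p ∣ b % p ↔ p ∣ b := by
    rw [Nat.dvd_iff_mod_eq_zero, Nat.mod_mod, ← Nat.dvd_iff_mod_eq_zero]
  have h2 : jacobiSym (((b % p : ℕ) : ℤ) ^ 2 + 4) p = jacobiSym ((b : ℤ) ^ 2 + 4) p := by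
    apply jacobiSym.mod_left'
    have h3 : ((b % p : ℕ) : ℤ) ≡ (b : ℤ) [ZMOD (p : ℤ)] := by
      push_cast
      exact Int.mod_modEq _ _
    exact (h3.pow 2).add_right 4
  rw [h1, h2]

/-- the value modulo a prime factor `q` of `c - 1` -/
lemma cover_aux {c b a q : ℕ} (hc : c = a * b + 1) (hb : 1 ≤ b) (hq : q.Prime) (hq2 : q ≠ 2)
    (hqc : q ∣ a * b)
    (h1 : jacobiSym (((b : ℤ) + a) ^ 2 + 4) q = 1) : IsQRC c b 1 {q} := by
  have hcz : (q : ℤ) ∣ (c : ℤ) - 1 := by
    rw [hc]
    push_cast
    rw [add_sub_cancel_right]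
    exact_mod_cast hqc
  have hdiv : (c - 1) / b = a := by
    rw [hc, Nat.add_sub_cancel]
    exact Nat.mul_div_cancel a hb
  refine ⟨by simpa using hq, by norm_num, ?_, ?_, ?_⟩
  · intro q' hq'
    rw [Finset.mem_singleton] at hq'
    subst hq'
    rw [pow_one]
    have h2 : ((c : ℕ) : ℤ) ≡ ((1 : ℕ) : ℤ) [ZMOD (q' : ℤ)] := by
      rw [Int.modEq_comm, Int.modEq_iff_dvd]
      push_cast
      exact hcz
    exact (Int.natCast_modEq_iff).1 h2
  · intro m hm0 hm1
    omega
  · intro n
    refine ⟨q, by simp, Or.inr ⟨hq2, ?_⟩⟩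
    have hcn : (c : ℤ) ^ n ≡ 1 [ZMOD (q : ℤ)] := by
      have h3 : (c : ℤ) ≡ 1 [ZMOD (q : ℤ)] := by
        rw [Int.modEq_comm, Int.modEq_iff_dvd]
        exact hcz
      have := h3.pow n
      rwa [one_pow] at this
    have h4 : Del c b n ≡ ((b : ℤ) + a) ^ 2 + 4 [ZMOD (q : ℤ)] := by
      unfold Del
      rw [hdiv]
      have h5 : (b : ℤ) * (c : ℤ) ^ n + (a : ℤ) ≡ (b : ℤ) * 1 + a [ZMOD (q : ℤ)] :=
        (hcn.mul_left _).add_right _
      have h6 := (h5.pow 2).add (hcn.mul_left 4)
      rw [mul_one, mul_one] at h6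
      exact h6
    have h7 : jacobiSym (Del c b n) q = 1 := by
      rw [← h1]
      exact jacobiSym.mod_left' h4
    rw [h7]
    norm_num

lemma cover_a {c b a q : ℕ} (hc : c = a * b + 1) (hb : 1 ≤ b) (hq : q.Prime) (hq2 : q ≠ 2)
    (hqa : q ∣ a) (h1 : Gd b q) : IsQRC c b 1 {q} := by
  apply cover_aux hc hb hq hq2 (hqa.mul_right _)
  rw [← h1.2]
  apply jacobiSym.mod_left'
  have h2 : (a : ℤ) ≡ 0 [ZMOD (q : ℤ)] := by
    rw [Int.modEq_zero_iff_dvd]
    exact_mod_cast hqa
  have h3 := (((Int.ModEq.refl (b : ℤ)).add h2).pow 2).add_right 4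
  rw [add_zero] at h3
  exact h3

lemma cover_b {c b a q : ℕ} (hc : c = a * b + 1) (hb : 1 ≤ b) (hq : q.Prime) (hq2 : q ≠ 2)
    (hqb : q ∣ b) (h1 : Gd a q) : IsQRC c b 1 {q} := by
  apply cover_aux hc hb hq hq2 (hqb.mul_left _)
  rw [← h1.2]
  apply jacobiSym.mod_left'
  have h2 : (b : ℤ) ≡ 0 [ZMOD (q : ℤ)] := by
    rw [Int.modEq_zero_iff_dvd]
    exact_mod_cast hqb
  have h3 := ((h2.add_right (a : ℤ)).pow 2).add_right 4
  rw [zero_add] at h3
  exact h3

open Classical in
/-- at least a quarter of the residues `r` modulo `p` satisfy `Gd r p` -/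
lemma count_good {p : ℕ} (hp : p.Prime) (hp11 : 11 ≤ p) :
    p ≤ 4 * ((range p).filter (fun r => Gd r p)).card := by
  have : Fact p.Prime := ⟨hp⟩
  have hp2 : (2 : ZMod p) ≠ 0 := by
    intro h
    have h1 : ((2 : ℕ) : ZMod p) = 0 := by exact_mod_cast h
    rw [ZMod.natCast_eq_zero_iff] at h1
    have := Nat.le_of_dvd (by norm_num) h1
    omega
  set T : Finset (ZMod p) := univ.filter (fun t => t ≠ 0 ∧ t ^ 2 ≠ 1 ∧ t ^ 2 ≠ -1) with hT
  -- the complement has at most five elements
  have hroots : ∀ u : ZMod p, (univ.filter (fun t : ZMod p => t ^ 2 = u)).card ≤ 2 := by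
    intro u
    by_contra h
    push Not at h
    obtain ⟨x, hx, y, hy, z, hz, hxy, hxz, hyz⟩ := Finset.two_lt_card.1 h
    simp only [Finset.mem_filter, Finset.mem_univ, true_and] at hx hy hz
    have h1 : (x - y) * (x + y) = 0 := by linear_combination hx - hy
    have h2 : (x - z) * (x + z) = 0 := by linear_combination hx - hz
    have h3 : x + y = 0 := by
      rcases mul_eq_zero.1 h1 with h | h
      · exact absurd (sub_eq_zero.1 h) hxy
      · exact h
    have h4 : x + z = 0 := by
      rcases mul_eq_zero.1 h2 with h | h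
      · exact absurd (sub_eq_zero.1 h) hxz
      · exact h
    apply hyz
    linear_combination h3 - h4
  have hcompl : p ≤ T.card + 5 := by
    have h1 : (univ : Finset (ZMod p)) ⊆ T ∪ ({0} ∪ (univ.filter (fun t : ZMod p => t ^ 2 = 1) ∪
        univ.filter (fun t : ZMod p => t ^ 2 = -1))) := by
      intro t _
      simp only [hT, Finset.mem_union, Finset.mem_filter, Finset.mem_univ, true_and,
        Finset.mem_singleton]
      tauto
    have h2 := Finset.card_le_card h1
    rw [Finset.card_univ, ZMod.card] at h2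
    have h3 := Finset.card_union_le T ({0} ∪ (univ.filter (fun t : ZMod p => t ^ 2 = 1) ∪
        univ.filter (fun t : ZMod p => t ^ 2 = -1)))
    have h4 := Finset.card_union_le ({0} : Finset (ZMod p))
      (univ.filter (fun t : ZMod p => t ^ 2 = 1) ∪ univ.filter (fun t : ZMod p => t ^ 2 = -1))
    have h5 := Finset.card_union_le (univ.filter (fun t : ZMod p => t ^ 2 = 1))
      (univ.filter (fun t : ZMod p => t ^ 2 = -1))
    have h6 := hroots 1
    have h7 := hroots (-1)
    rw [Finset.card_singleton] at h4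
    omega
  have hfib : T.card ≤ 2 * (T.image (fun t => t - t⁻¹)).card := by
    apply Finset.card_le_mul_card_image
    intro v _
    by_contra h
    push Not at h
    obtain ⟨x, hx, y, hy, z, hz, hxy, hxz, hyz⟩ := Finset.two_lt_card.1 h
    simp only [hT, Finset.mem_filter, Finset.mem_univ, true_and] at hx hy hz
    obtain ⟨⟨hx0, -, -⟩, hxv⟩ := hx
    obtain ⟨⟨hy0, -, -⟩, hyv⟩ := hy
    obtain ⟨⟨hz0, -, -⟩, hzv⟩ := hz
    have hx' : x ^ 2 - v * x - 1 = 0 := by
      rw [← hxv]
      field_simp
      ring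
    have hy' : y ^ 2 - v * y - 1 = 0 := by
      rw [← hyv]
      field_simp
      ring
    have hz' : z ^ 2 - v * z - 1 = 0 := by
      rw [← hzv]
      field_simp
      ring
    have h1 : (x - y) * (x + y - v) = 0 := by linear_combination hx' - hy'
    have h2 : (x - z) * (x + z - v) = 0 := by linear_combination hx' - hz'
    have h3 : x + y - v = 0 := by
      rcases mul_eq_zero.1 h1 with h | h
      · exact absurd (sub_eq_zero.1 h) hxy
      · exact h
    have h4 : x + z - v = 0 := by
      rcases mul_eq_zero.1 h2 with h | h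
      · exact absurd (sub_eq_zero.1 h) hxz
      · exact h
    apply hyz
    linear_combination h3 - h4
  have himg : (T.image (fun t => t - t⁻¹)).card ≤ ((range p).filter (fun r => Gd r p)).card := by
    apply Finset.card_le_card_of_injOn (fun v : ZMod p => v.val)
    · intro v hv
      obtain ⟨t, ht, rfl⟩ := Finset.mem_image.1 (Finset.mem_coe.1 hv)
      simp only [hT, Finset.mem_filter, Finset.mem_univ, true_and] at ht
      obtain ⟨ht0, ht1, ht2⟩ := ht
      rw [Finset.mem_coe, Finset.mem_filter]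
      refine ⟨Finset.mem_range.2 (ZMod.val_lt _), ?_, ?_⟩
      · intro hd
        rw [← ZMod.natCast_eq_zero_iff, ZMod.natCast_val, ZMod.cast_id', id] at hd
        apply ht1
        have : t ^ 2 - 1 = t * (t - t⁻¹) := by
          field_simp
        have h2 : t ^ 2 - 1 = 0 := by rw [this, hd, mul_zero]
        linear_combination h2
      · rw [← jacobiSym.legendreSym.to_jacobiSym]
        rw [legendreSym.eq_one_iff]
        · push_cast
          rw [ZMod.natCast_val, ZMod.cast_id', id]
          refine ⟨t + t⁻¹, ?_⟩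
          field_simp
          ring
        · push_cast
          rw [ZMod.natCast_val, ZMod.cast_id', id]
          intro h
          have h3 : (t + t⁻¹) ^ 2 = 0 := by
            rw [← h]
            field_simp
            ring
          have h4 : t + t⁻¹ = 0 := by
            rcases pow_eq_zero_iff (two_ne_zero) |>.1 h3 with h5
            exact h5
          apply ht2
          have h6 : t ^ 2 + 1 = t * (t + t⁻¹) := by
            field_simp
          have h7 : t ^ 2 + 1 = 0 := by rw [h6, h4, mul_zero]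
          linear_combination h7
    · intro u _ v _ huv
      exact ZMod.val_injective p huv
  omega

end Pool.Agent.Y525.QC
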