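import Pool.Agent.Y525.QC.PerB
import Pool.Agent.Y525.QC.Sieve
import Pool.Agent.TH423.SH.SIGP
import Pool.Agent.H98R2.Nt.N9
import Pool.Agent.Erdos456.Mertens

/-!
Quadratic residue covers for almost all pairs `(c, b)`.
-/

set_option autoImplicit false

open Finset

namespace Pool.Agent.Y525.QC

open Pool.Agent.TH423.SH

lemma sum_ff {C : ℝ} (hC : ∀ H : ℕ, 1 ≤ H →
    ∑ h ∈ Icc 1 H, ((h : ℝ) / (Nat.totient h : ℝ)) ^ 2 / h ≤ C * (2 + Real.log H))
    {S : Finset ℕ} (hS : ∀ p ∈ S, p.Prime ∧ 11 ≤ p) (N : ℕ) (hN : 1 ≤ N) (l : ℝ) (hl : 0 < l) :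
    ∑ b ∈ Icc 1 N, ff S b / Nat.totient b ≤ l / 2 * (C * (2 + Real.log N)) +
      1 / (2 * l) * ((1 + Real.log (∏ p ∈ S, p : ℕ)) +
        Real.exp (-(∑ p ∈ S, 1 / (p : ℝ)) / 4) * (1 + Real.log N)) := by
  have hS1 : ∀ p ∈ S, 1 ≤ p := fun p hp => (hS p hp).1.one_le
  have hWpos : 0 < ∏ p ∈ S, p := Finset.prod_pos fun p hp => (hS p hp).1.pos
  have hWR : (0 : ℝ) < ((∏ p ∈ S, p : ℕ) : ℝ) := by exact_mod_cast hWpos
  have h1 : ∀ b ∈ Icc 1 N, ff S b / Nat.totient b ≤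
      l / 2 * (((b : ℝ) / (Nat.totient b : ℝ)) ^ 2 / b) + 1 / (2 * l) * (ff S b / b) := by
    intro b hb
    have hb1 : 1 ≤ b := (Finset.mem_Icc.1 hb).1
    have hbR : (0 : ℝ) < b := by exact_mod_cast hb1
    have hφ : (0 : ℝ) < Nat.totient b := by exact_mod_cast Nat.totient_pos.2 hb1
    have hf0 := ff_nonneg hS1 b
    have hf1 := ff_le_one hS1 b
    set u : ℝ := (b : ℝ) / (Nat.totient b : ℝ) with hu
    have h2 : ff S b / Nat.totient b = u * ff S b / b := by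
      rw [hu]
      field_simp
    rw [h2]
    have h3 : u * ff S b ≤ l / 2 * u ^ 2 + 1 / (2 * l) * ff S b := by
      have h4 : 0 ≤ (l * u - ff S b) ^ 2 := sq_nonneg _
      have h5 : ff S b ^ 2 ≤ ff S b := by nlinarith
      have h6 : l / 2 * u ^ 2 + 1 / (2 * l) * ff S b - u * ff S b =
          (1 / (2 * l)) * ((l * u - ff S b) ^ 2 + (ff S b - ff S b ^ 2)) := by
        field_simp
        ring
      have h7 : 0 ≤ (1 / (2 * l)) * ((l * u - ff S b) ^ 2 + (ff S b - ff S b ^ 2)) := by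
        apply mul_nonneg (by positivity)
        linarith
      linarith
    calc u * ff S b / b ≤ (l / 2 * u ^ 2 + 1 / (2 * l) * ff S b) / b :=
          div_le_div_of_nonneg_right h3 hbR.le
      _ = _ := by ring
  refine (Finset.sum_le_sum h1).trans ?_
  rw [Finset.sum_add_distrib, ← Finset.mul_sum, ← Finset.mul_sum]
  apply add_le_add
  · exact mul_le_mul_of_nonneg_left (hC N hN) (by positivity)
  · apply mul_le_mul_of_nonneg_left _ (by positivity)
    refine (log_mean hWpos (ff S) (ff_nonneg hS1) (ff_le_one hS1) (ff_mod S) N).trans ?_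
    apply add_le_add_right
    apply mul_le_mul_of_nonneg_right
    · rw [div_le_iff₀ hWR]
      have h8 := ff_sum hS
      push_cast
      linarith
    · have : 0 ≤ Real.log N := Real.log_natCast_nonneg N
      linarith

/-- primes with a large sum of reciprocals -/
lemma exists_S (B : ℝ) : ∃ (S : Finset ℕ) (z : ℕ), (∀ p ∈ S, p.Prime ∧ 11 ≤ p) ∧
    (∀ p ∈ S, p ≤ z) ∧ B ≤ ∑ p ∈ S, 1 / (p : ℝ) := by
  obtain ⟨s, hs, t₀, ht⟩ := sig 1 le_rfl
  obtain ⟨j₀, hj1, hj2⟩ : ∃ j₀ : ℕ, t₀ ≤ 2 ^ 2 ^ j₀ ∧ 11 ≤ 2 ^ 2 ^ j₀ := by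
    have h1 : t₀ + 11 < 2 ^ (t₀ + 11) := Nat.lt_two_pow_self
    have h2 : 2 ^ (t₀ + 11) < 2 ^ 2 ^ (t₀ + 11) := Nat.lt_two_pow_self
    exact ⟨t₀ + 11, by omega, by omega⟩
  obtain ⟨n, hn⟩ := exists_nat_ge (B / s)
  have h3 := sum_low ht hj1 (j₀ + n) (Nat.le_add_right _ _)
  refine ⟨(Ioc (2 ^ 2 ^ j₀) (2 ^ 2 ^ (j₀ + n))).filter (fun q => q.Prime ∧ q % 1 = 1 % 1),
    2 ^ 2 ^ (j₀ + n), ?_, ?_, ?_⟩
  · intro p hp
    obtain ⟨h4, h5, -⟩ := Finset.mem_filter.1 hp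
    exact ⟨h5, hj2.trans (Finset.mem_Ioc.1 h4).1.le⟩
  · intro p hp
    exact (Finset.mem_Ioc.1 (Finset.mem_filter.1 hp).1).2
  · refine le_trans ?_ h3
    push_cast
    rw [add_sub_cancel_left]
    rw [div_le_iff₀ hs] at hn
    linarith

/-- the exceptional pairs -/
lemma subset_bound {S : Finset ℕ} (hS : ∀ p ∈ S, p.Prime ∧ 11 ≤ p) (z x : ℕ) :
    Set.ncard {u : ℕ × ℕ | u.1 ≤ x ∧ u.1.Prime ∧ u.2 ∣ u.1 - 1 ∧
      ¬ ∃ q : ℕ, q.Prime ∧ IsQRC u.1 u.2 1 {q}} ≤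
      (z + 1) ^ 2 + 2 * ∑ b ∈ Icc 1 (Nat.sqrt x), (Ex S z b (x / b)).card := by
  classical
  set A := (Icc 1 (Nat.sqrt x)).sigma (fun b => Ex S z b (x / b)) with hA
  have hsub : {u : ℕ × ℕ | u.1 ≤ x ∧ u.1.Prime ∧ u.2 ∣ u.1 - 1 ∧
      ¬ ∃ q : ℕ, q.Prime ∧ IsQRC u.1 u.2 1 {q}} ⊆
      ((range (z + 1) ×ˢ range (z + 1) ∪ (A.image (fun v => (v.2 * v.1 + 1, v.1)) ∪
        A.image (fun v => (v.2 * v.1 + 1, v.2))) : Finset (ℕ × ℕ)) : Set (ℕ × ℕ)) := by
    rintro ⟨c, b⟩ ⟨h1, h2, h3, h4⟩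
    simp only at h1 h2 h3 h4
    obtain ⟨a, ha⟩ := h3
    have hc2 := h2.two_le
    have hc : c = a * b + 1 := by
      rw [mul_comm a b, ← ha]
      omega
    have hab : 0 < a * b := by omega
    have ha1 : 1 ≤ a := Nat.pos_of_ne_zero fun h => by rw [h, zero_mul] at hab; omega
    have hb1 : 1 ≤ b := Nat.pos_of_ne_zero fun h => by rw [h, mul_zero] at hab; omega
    rw [Finset.mem_coe, Finset.mem_union, Finset.mem_union]
    by_cases hcz : c ≤ z
    · left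
      rw [Finset.mem_product, Finset.mem_range, Finset.mem_range]
      have : b ≤ a * b := Nat.le_mul_of_pos_left b ha1
      exact ⟨by omega, by omega⟩
    · right
      by_cases hbs : b ≤ Nat.sqrt x
      · left
        rw [Finset.mem_image]
        refine ⟨⟨b, a⟩, ?_, by simp [hc]⟩
        rw [hA, Finset.mem_sigma]
        refine ⟨Finset.mem_Icc.2 ⟨hb1, hbs⟩, ?_⟩
        change a ∈ Ex S z b (x / b)
        unfold Ex
        rw [Finset.mem_filter, Finset.mem_Icc]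
        refine ⟨⟨ha1, (Nat.le_div_iff_mul_le hb1).2 (by omega)⟩, hc ▸ h2, by omega, ?_⟩
        intro p hp hG hpa
        have hp11 := (hS p hp).2
        exact h4 ⟨p, (hS p hp).1, cover_a hc hb1 (hS p hp).1 (by omega) hpa hG⟩
      · right
        rw [Finset.mem_image]
        have has : a ≤ Nat.sqrt x := by
          by_contra h
          have h5 : Nat.sqrt x + 1 ≤ a := by omega
          have h6 : Nat.sqrt x + 1 ≤ b := by omega
          have h7 := Nat.mul_le_mul h5 h6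
          have h8 := Nat.lt_succ_sqrt x
          rw [Nat.succ_eq_add_one] at h8
          omega
        refine ⟨⟨a, b⟩, ?_, by simp [hc, mul_comm]⟩
        rw [hA, Finset.mem_sigma]
        refine ⟨Finset.mem_Icc.2 ⟨ha1, has⟩, ?_⟩
        change b ∈ Ex S z a (x / a)
        unfold Ex
        rw [Finset.mem_filter, Finset.mem_Icc]
        refine ⟨⟨hb1, (Nat.le_div_iff_mul_le ha1).2 (by rw [mul_comm]; omega)⟩, ?_, ?_, ?_⟩
        · rw [mul_comm b a]
          exact hc ▸ h2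
        · rw [mul_comm b a]
          omega
        · intro p hp hG hpb
          have hp11 := (hS p hp).2
          exact h4 ⟨p, (hS p hp).1, cover_b hc hb1 (hS p hp).1 (by omega) hpb hG⟩
  have h9 := Set.ncard_le_ncard hsub (Finset.finite_toSet _)
  rw [Set.ncard_coe_finset] at h9
  refine h9.trans ?_
  have h10 : A.card = ∑ b ∈ Icc 1 (Nat.sqrt x), (Ex S z b (x / b)).card := by
    rw [hA, Finset.card_sigma]
  calc _ ≤ (range (z + 1) ×ˢ range (z + 1)).card + (A.image (fun v => (v.2 * v.1 + 1, v.1)) ∪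
        A.image (fun v => (v.2 * v.1 + 1, v.2))).card := Finset.card_union_le _ _
    _ ≤ (z + 1) ^ 2 + (A.card + A.card) := by
        apply Nat.add_le_add
        · rw [Finset.card_product, Finset.card_range, sq]
        · refine (Finset.card_union_le _ _).trans ?_
          exact Nat.add_le_add Finset.card_image_le Finset.card_image_le
    _ = _ := by rw [← h10]; ring

lemma E_bound {C : ℝ} (hC : ∀ H : ℕ, 1 ≤ H →
    ∑ h ∈ Icc 1 H, ((h : ℝ) / (Nat.totient h : ℝ)) ^ 2 / h ≤ C * (2 + Real.log H)) (hC0 : 0 ≤ C)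
    {S : Finset ℕ} (hS : ∀ p ∈ S, p.Prime ∧ 11 ≤ p) {z : ℕ} (hz : ∀ p ∈ S, p ≤ z)
    (x : ℕ) (hx : 16 ≤ x) (hxW : (∏ p ∈ S, p) < Nat.sqrt x)
    (hL : 4 * Real.log (2 * (∏ p ∈ S, p : ℕ)) ≤ Real.log x) (l : ℝ) (hl : 0 < l) :
    ((∑ b ∈ Icc 1 (Nat.sqrt x), (Ex S z b (x / b)).card : ℕ) : ℝ) ≤
      176 * x / Real.log x * (l / 2 * (C * (2 + Real.log x)) +
      1 / (2 * l) * ((1 + Real.log (∏ p ∈ S, p : ℕ)) +
        Real.exp (-(∑ p ∈ S, 1 / (p : ℝ)) / 4) * (1 + Real.log x))) := by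
  have hS1 : ∀ p ∈ S, 1 ≤ p := fun p hp => (hS p hp).1.one_le
  set W := ∏ p ∈ S, p with hW
  have hWpos : 0 < W := Finset.prod_pos fun p hp => (hS p hp).1.pos
  have hWR : (0 : ℝ) < (W : ℝ) := by exact_mod_cast hWpos
  have hxR : (16 : ℝ) ≤ x := by exact_mod_cast hx
  have hlx : 0 < Real.log x := Real.log_pos (by linarith)
  set s := Nat.sqrt x with hs
  have hs1 : 1 ≤ s := by omega
  have hsR : (1 : ℝ) ≤ s := by exact_mod_cast hs1
  have hsx : s ≤ x := Nat.sqrt_le_self x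
  have hcast : (∏ p ∈ S, (p : ℝ)) = (W : ℝ) := by
    rw [hW]
    push_cast
    rfl
  -- size of the square root
  have hs2 : Real.sqrt x ≤ 2 * s := by
    have h1 : x < (s + 1) * (s + 1) := Nat.lt_succ_sqrt x
    have h2 : (x : ℝ) ≤ (2 * s) ^ 2 := by
      have h3 : (x : ℝ) < (s + 1) * (s + 1) := by exact_mod_cast h1
      nlinarith
    rw [← Real.sqrt_sq (show (0 : ℝ) ≤ 2 * s by linarith)]
    exact Real.sqrt_le_sqrt h2
  have hlogs : Real.log x / 4 ≤ Real.log ((s : ℝ) / W) := by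
    have h1 : Real.log (Real.sqrt x) ≤ Real.log (2 * s) :=
      Real.log_le_log (Real.sqrt_pos.2 (by linarith)) hs2
    rw [Real.log_sqrt (by linarith), Real.log_mul (by norm_num) (by linarith)] at h1
    rw [Real.log_mul (by norm_num) hWR.ne'] at hL
    rw [Real.log_div (by linarith) hWR.ne']
    linarith
  have hterm : ∀ b ∈ Icc 1 s, ((Ex S z b (x / b)).card : ℝ) ≤
      176 * x / Real.log x * (ff S b / Nat.totient b) := by
    intro b hb
    obtain ⟨hb1, hbs⟩ := Finset.mem_Icc.1 hb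
    have hbR : (1 : ℝ) ≤ b := by exact_mod_cast hb1
    have hφ : (0 : ℝ) < Nat.totient b := by exact_mod_cast Nat.totient_pos.2 hb1
    have hys : s ≤ x / b := by
      rw [Nat.le_div_iff_mul_le hb1]
      calc s * b ≤ s * s := Nat.mul_le_mul_left _ hbs
        _ ≤ x := Nat.sqrt_le x
    have h1 := per_b hS hz b (x / b) hb1 (lt_of_lt_of_le hxW hys)
    rw [hcast] at h1
    refine h1.trans ?_
    have hysR : (s : ℝ) ≤ ((x / b : ℕ) : ℝ) := by exact_mod_cast hys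
    have hff0 := ff_nonneg hS1 b
    have hlog : Real.log x / 4 ≤ Real.log (((x / b : ℕ) : ℝ) / W) := by
      refine hlogs.trans (Real.log_le_log (by positivity) ?_)
      exact div_le_div_of_nonneg_right hysR hWR.le
    have hby : (b : ℝ) * ((x / b : ℕ) : ℝ) ≤ x := by
      have : b * (x / b) ≤ x := Nat.mul_div_le x b
      exact_mod_cast this
    calc 44 * ((b : ℝ) / Nat.totient b) * ff S b * ((x / b : ℕ) : ℝ) /
          Real.log (((x / b : ℕ) : ℝ) / W)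
        ≤ 44 * ((b : ℝ) / Nat.totient b) * ff S b * ((x / b : ℕ) : ℝ) / (Real.log x / 4) := by
          apply div_le_div_of_nonneg_left (by positivity) (by positivity) hlog
      _ = 176 / Real.log x * (ff S b / Nat.totient b) * (b * ((x / b : ℕ) : ℝ)) := by
          field_simp
          ring
      _ ≤ 176 / Real.log x * (ff S b / Nat.totient b) * x := by
          apply mul_le_mul_of_nonneg_left hby (by positivity)
      _ = _ := by ring
  push_cast
  refine (Finset.sum_le_sum hterm).trans ?_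
  rw [← Finset.mul_sum]
  apply mul_le_mul_of_nonneg_left _ (by positivity)
  refine (sum_ff hC hS s hs1 l hl).trans ?_
  have hlogsx : Real.log s ≤ Real.log x := Real.log_le_log (by linarith) (by exact_mod_cast hsx)
  gcongr

lemma final2 {x L l C ε η m lw z2 E : ℝ} (hε : 0 < ε) (hC : 1 ≤ C) (hx : 0 < x) (hL : 2 ≤ L)
    (hl : l = ε / (1408 * C)) (hη : η = ε * l / 1408) (hm0 : 0 ≤ m) (hm : m ≤ η)
    (hLw : 704 * (1 + lw) / (l * ε) ≤ L) (hz : 4 * z2 / ε ≤ x)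
    (hE : E ≤ 176 * x / L * (l / 2 * (C * (2 + L)) + 1 / (2 * l) * ((1 + lw) + m * (1 + L)))) :
    z2 + 2 * E ≤ ε * x := by
  have hl0 : 0 < l := by
    rw [hl]
    positivity
  have hL0 : 0 < L := by linarith
  have h2 : (2 + L) / L ≤ 2 := by
    rw [div_le_iff₀ hL0]
    linarith
  have h1 : (1 + L) / L ≤ 2 := by
    rw [div_le_iff₀ hL0]
    linarith
  have ha : 352 / L * (l / 2 * (C * (2 + L))) ≤ ε / 4 := by
    have e1 : 352 / L * (l / 2 * (C * (2 + L))) = 176 * l * C * ((2 + L) / L) := by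
      field_simp
      ring
    have e2 : 176 * l * C * 2 = ε / 4 := by
      rw [hl]
      field_simp
      ring
    rw [e1, ← e2]
    exact mul_le_mul_of_nonneg_left h2 (by positivity)
  have hb : 352 / L * (1 / (2 * l) * (1 + lw)) ≤ ε / 4 := by
    rw [div_le_iff₀ (by positivity)] at hLw
    have e1 : 352 / L * (1 / (2 * l) * (1 + lw)) = (176 * (1 + lw)) / (l * L) := by
      field_simp
      ring
    rw [e1, div_le_iff₀ (by positivity)]
    nlinarith
  have hc : 352 / L * (1 / (2 * l) * (m * (1 + L))) ≤ ε / 4 := by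
    have e1 : 352 / L * (1 / (2 * l) * (m * (1 + L))) = 176 * (m / l) * ((1 + L) / L) := by
      field_simp
      ring
    have e2 : m / l ≤ ε / 1408 := by
      rw [div_le_iff₀ hl0]
      rw [hη] at hm
      linarith
    have e3 : 0 ≤ m / l := by positivity
    rw [e1]
    calc 176 * (m / l) * ((1 + L) / L) ≤ 176 * (m / l) * 2 :=
          mul_le_mul_of_nonneg_left h1 (by positivity)
      _ ≤ ε / 4 := by linarith
  have hd : z2 ≤ ε / 4 * x := by
    rw [div_le_iff₀ hε] at hz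
    linarith
  have he : 2 * E ≤ x * (352 / L * (l / 2 * (C * (2 + L))) + 352 / L * (1 / (2 * l) * (1 + lw)) +
      352 / L * (1 / (2 * l) * (m * (1 + L)))) := by
    refine (mul_le_mul_of_nonneg_left hE (by norm_num : (0 : ℝ) ≤ 2)).trans (le_of_eq ?_)
    ring
  have hf : x * (352 / L * (l / 2 * (C * (2 + L))) + 352 / L * (1 / (2 * l) * (1 + lw)) +
      352 / L * (1 / (2 * l) * (m * (1 + L)))) ≤ x * (3 * (ε / 4)) :=
    mul_le_mul_of_nonneg_left (by linarith) hx.le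
  linarith

/-- for almost all pairs some prime is a `1`-QRC -/
theorem pairs_bound (ε : ℝ) (hε : 0 < ε) : ∃ X : ℕ, ∀ x : ℕ, X ≤ x →
    (Set.ncard {u : ℕ × ℕ | u.1 ≤ x ∧ u.1.Prime ∧ u.2 ∣ u.1 - 1 ∧
      ¬ ∃ q : ℕ, q.Prime ∧ IsQRC u.1 u.2 1 {q}} : ℝ) ≤ ε * x := by
  obtain ⟨C0, hC0⟩ := Pool.Agent.Erdos456.Mert.totRatio_moment
  obtain ⟨C, hCdef⟩ : ∃ C : ℝ, C = max C0 0 + 1 := ⟨_, rfl⟩
  have hC1 : 1 ≤ C := by
    rw [hCdef]
    have := le_max_right C0 0
    linarith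
  have hCC0 : C0 ≤ C := by
    rw [hCdef]
    have := le_max_left C0 0
    linarith
  have hC : ∀ H : ℕ, 1 ≤ H →
      ∑ h ∈ Icc 1 H, ((h : ℝ) / (Nat.totient h : ℝ)) ^ 2 / h ≤ C * (2 + Real.log H) :=
    fun H hH => Pool.Agent.H98R2.Nt.N9Aux.ratio_sum C (fun N => (hC0 N).trans
      (mul_le_mul_of_nonneg_right hCC0 (Nat.cast_nonneg _))) H hH
  obtain ⟨l, hl⟩ : ∃ l : ℝ, l = ε / (1408 * C) := ⟨_, rfl⟩
  obtain ⟨η, hη⟩ : ∃ η : ℝ, η = ε * l / 1408 := ⟨_, rfl⟩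
  have hl0 : 0 < l := by
    rw [hl]
    positivity
  have hη0 : 0 < η := by
    rw [hη]
    positivity
  obtain ⟨S, z, hS, hz, hB⟩ := exists_S (4 * (-Real.log η))
  have hm : Real.exp (-(∑ p ∈ S, 1 / (p : ℝ)) / 4) ≤ η := by
    rw [← Real.exp_log hη0]
    apply Real.exp_le_exp.2
    linarith
  obtain ⟨W, hW⟩ : ∃ W : ℕ, W = ∏ p ∈ S, p := ⟨_, rfl⟩
  obtain ⟨M, hM⟩ : ∃ M : ℝ, M = max (4 * Real.log (2 * W))
      (max 2 (704 * (1 + Real.log W) / (l * ε))) := ⟨_, rfl⟩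
  refine ⟨max (max 16 ((W + 1) ^ 2)) (max ⌈Real.exp M⌉₊ ⌈4 * ((z : ℝ) + 1) ^ 2 / ε⌉₊),
    fun x hx => ?_⟩
  have hx1 : 16 ≤ x := ((le_max_left _ _).trans (le_max_left _ _)).trans hx
  have hx2 : (W + 1) ^ 2 ≤ x := ((le_max_right _ _).trans (le_max_left _ _)).trans hx
  have hx3 : ⌈Real.exp M⌉₊ ≤ x := ((le_max_left _ _).trans (le_max_right _ _)).trans hx
  have hx4 : ⌈4 * ((z : ℝ) + 1) ^ 2 / ε⌉₊ ≤ x :=
    ((le_max_right _ _).trans (le_max_right _ _)).trans hx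
  have hxR : (0 : ℝ) < x := by
    have : 0 < x := by omega
    exact_mod_cast this
  have hML : M ≤ Real.log x := by
    rw [← Real.log_exp M]
    exact Real.log_le_log (Real.exp_pos _) ((Nat.le_ceil _).trans (by exact_mod_cast hx3))
  have hM1 : 4 * Real.log (2 * W) ≤ M := by rw [hM]; exact le_max_left _ _
  have hM2 : 2 ≤ M := by rw [hM]; exact (le_max_left _ _).trans (le_max_right _ _)
  have hM3 : 704 * (1 + Real.log W) / (l * ε) ≤ M := by
    rw [hM]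
    exact (le_max_right _ _).trans (le_max_right _ _)
  have hsq : W < Nat.sqrt x := by
    have h1 : W + 1 ≤ Nat.sqrt x := by
      rw [Nat.le_sqrt, ← sq]
      exact hx2
    omega
  have hE := E_bound hC (by linarith) hS hz x hx1 (hW ▸ hsq) (hW ▸ hM1.trans hML) l hl0
  rw [← hW] at hE
  have hsub := subset_bound hS z x
  have hsubR : (Set.ncard {u : ℕ × ℕ | u.1 ≤ x ∧ u.1.Prime ∧ u.2 ∣ u.1 - 1 ∧
      ¬ ∃ q : ℕ, q.Prime ∧ IsQRC u.1 u.2 1 {q}} : ℝ) ≤
      ((z : ℝ) + 1) ^ 2 + 2 * ((∑ b ∈ Icc 1 (Nat.sqrt x), (Ex S z b (x / b)).card : ℕ) : ℝ) := by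
    exact_mod_cast hsub
  refine hsubR.trans ?_
  exact final2 hε hC1 hxR (hM2.trans hML) hl hη (Real.exp_pos _).le hm (hM3.trans hML)
    ((Nat.le_ceil _).trans (by exact_mod_cast hx4)) hE

end Pool.Agent.Y525.QC
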