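import Pool.Agent.Y525.QC.Pair1
import Pool.Agent.Y525.QC.Crt
import Pool.Agent.TH915.UC.BT

/-!
The exceptional `a` for a given `b`: upper bound.
-/

set_option autoImplicit false

open Finset

namespace Pool.Agent.Y525.QC

open Classical in
/-- the product over the primes `p` of `S` with `Gd b p` of `1 - 1 / p` -/
noncomputable def ff (S : Finset ℕ) (b : ℕ) : ℝ :=
  ∏ p ∈ S, if Gd b p then 1 - 1 / (p : ℝ) else 1

lemma factor_bounds {p : ℕ} (hp : 1 ≤ p) : 0 ≤ 1 - 1 / (p : ℝ) ∧ 1 - 1 / (p : ℝ) ≤ 1 := by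
  have h1 : (1 : ℝ) ≤ p := by exact_mod_cast hp
  constructor
  · have : 1 / (p : ℝ) ≤ 1 := by
      rw [div_le_one (by linarith)]
      exact h1
    linarith
  · have : 0 ≤ 1 / (p : ℝ) := by positivity
    linarith

lemma ff_nonneg {S : Finset ℕ} (hS : ∀ p ∈ S, 1 ≤ p) (b : ℕ) : 0 ≤ ff S b := by
  unfold ff
  apply Finset.prod_nonneg
  intro p hp
  split_ifs
  · exact (factor_bounds (hS p hp)).1
  · norm_num

lemma ff_le_one {S : Finset ℕ} (hS : ∀ p ∈ S, 1 ≤ p) (b : ℕ) : ff S b ≤ 1 := by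
  unfold ff
  apply Finset.prod_le_one
  · intro p hp
    split_ifs
    · exact (factor_bounds (hS p hp)).1
    · norm_num
  · intro p hp
    split_ifs
    · exact (factor_bounds (hS p hp)).2
    · exact le_refl _

lemma ff_mod (S : Finset ℕ) (b : ℕ) : ff S (b % ∏ p ∈ S, p) = ff S b := by
  unfold ff
  apply Finset.prod_congr rfl
  intro p hp
  have h1 : Gd (b % ∏ p ∈ S, p) p ↔ Gd b p := by
    rw [← Gd_mod (b % ∏ p ∈ S, p) p, Nat.mod_mod_of_dvd _ (Finset.dvd_prod_of_mem _ hp), Gd_mod]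
  by_cases h : Gd b p
  · rw [if_pos h, if_pos (h1.2 h)]
  · rw [if_neg h, if_neg (fun h' => h (h1.1 h'))]

/-- the mean value of `ff` -/
lemma ff_sum {S : Finset ℕ} (hS : ∀ p ∈ S, p.Prime ∧ 11 ≤ p) :
    ∑ r ∈ range (∏ p ∈ S, p), ff S r ≤
      (∏ p ∈ S, (p : ℝ)) * Real.exp (-(∑ p ∈ S, 1 / (p : ℝ)) / 4) := by
  classical
  have h1 := crt_sum S (fun p hp => (hS p hp).1)
    (fun p r => if Gd r p then (if p = 0 then 0 else 1 - 1 / (p : ℝ)) else 1) (by
      intro p r
      split_ifs with h1 h2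
      · exact le_refl _
      · exact (factor_bounds (Nat.one_le_iff_ne_zero.2 h2)).1
      · norm_num)
  have h2 : ∀ r, ff S r = ∏ p ∈ S, (if Gd (r % p) p then
      (if p = 0 then 0 else 1 - 1 / (p : ℝ)) else 1) := by
    intro r
    unfold ff
    apply Finset.prod_congr rfl
    intro p hp
    have h3 : p ≠ 0 := (hS p hp).1.ne_zero
    simp only [Gd_mod, if_neg h3]
  simp only [h2]
  refine h1.trans ?_
  have h4 : ∀ p ∈ S, ∑ r ∈ range p, (if Gd r p then (if p = 0 then 0 else 1 - 1 / (p : ℝ)) else 1) ≤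
      (p : ℝ) * Real.exp (-(1 / (p : ℝ)) / 4) := by
    intro p hp
    obtain ⟨hp1, hp2⟩ := hS p hp
    have hpR : (11 : ℝ) ≤ p := by exact_mod_cast hp2
    have h5 : ∀ r, (if Gd r p then (if p = 0 then 0 else 1 - 1 / (p : ℝ)) else 1) =
        1 - (1 / (p : ℝ)) * (if Gd r p then 1 else 0) := by
      intro r
      rw [if_neg hp1.ne_zero]
      split_ifs <;> ring
    simp only [h5]
    rw [Finset.sum_sub_distrib, ← Finset.mul_sum, Finset.sum_boole, Finset.sum_const,
      Finset.card_range, nsmul_eq_mul, mul_one]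
    have h6 : (p : ℝ) ≤ 4 * (((range p).filter (fun r => Gd r p)).card : ℝ) := by
      exact_mod_cast count_good hp1 hp2
    have h7 : (1 / 4 : ℝ) ≤ 1 / (p : ℝ) * (((range p).filter (fun r => Gd r p)).card : ℝ) := by
      rw [one_div_mul_eq_div, le_div_iff₀ (by linarith)]
      linarith
    have h8 := Real.one_sub_le_exp_neg (1 / (p : ℝ) / 4)
    have h9 : (p : ℝ) * (1 - 1 / (p : ℝ) / 4) ≤ (p : ℝ) * Real.exp (-(1 / (p : ℝ) / 4)) :=
      mul_le_mul_of_nonneg_left h8 (by linarith)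
    have h10 : (p : ℝ) * (1 - 1 / (p : ℝ) / 4) = p - 1 / 4 := by
      field_simp
    have h11 : -(1 / (p : ℝ)) / 4 = -(1 / (p : ℝ) / 4) := by ring
    rw [h11]
    linarith
  calc ∏ p ∈ S, ∑ r ∈ range p, (if Gd r p then (if p = 0 then 0 else 1 - 1 / (p : ℝ)) else 1)
      ≤ ∏ p ∈ S, ((p : ℝ) * Real.exp (-(1 / (p : ℝ)) / 4)) := by
        apply Finset.prod_le_prod
        · intro p hp
          apply Finset.sum_nonneg
          intro r _
          split_ifs with h1 h2
          · exact le_refl _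
          · exact (factor_bounds (Nat.one_le_iff_ne_zero.2 h2)).1
          · norm_num
        · exact h4
    _ = _ := by
        rw [Finset.prod_mul_distrib, ← Real.exp_sum, ← Finset.sum_div, Finset.sum_neg_distrib]

open Classical in
lemma R_card {T : Finset ℕ} {b : ℕ} (hT : ∀ p ∈ T, p.Prime ∧ ¬ p ∣ b) :
    (((range (∏ p ∈ T, p)).filter (fun r => ∀ p ∈ T, ¬ p ∣ r ∧ ¬ p ∣ r * b + 1)).card : ℝ) ≤
      ∏ p ∈ T, ((p : ℝ) - 2) := by
  have h1 := crt_sum T (fun p hp => (hT p hp).1)
    (fun p r => if (¬ p ∣ r ∧ ¬ p ∣ r * b + 1) then 1 else 0) (by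
      intro p r
      split_ifs <;> norm_num)
  have h2 : ∀ r, ∏ p ∈ T, (if (¬ p ∣ r % p ∧ ¬ p ∣ r % p * b + 1) then (1 : ℝ) else 0) =
      if ∀ p ∈ T, ¬ p ∣ r ∧ ¬ p ∣ r * b + 1 then 1 else 0 := by
    intro r
    rw [Finset.prod_boole]
    have h3 : (∀ p ∈ T, ¬ p ∣ r % p ∧ ¬ p ∣ r % p * b + 1) ↔
        ∀ p ∈ T, ¬ p ∣ r ∧ ¬ p ∣ r * b + 1 := by
      apply forall₂_congr
      intro p _
      have h4 : p ∣ r % p ↔ p ∣ r := by
        rw [Nat.dvd_iff_mod_eq_zero, Nat.mod_mod, ← Nat.dvd_iff_mod_eq_zero]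
      have h5 : p ∣ r % p * b + 1 ↔ p ∣ r * b + 1 := by
        have h6 : r % p * b + 1 ≡ r * b + 1 [MOD p] :=
          ((Nat.mod_modEq r p).mul_right b).add_right 1
        exact h6.dvd_iff (dvd_refl p)
      rw [h4, h5]
    simp only [h3]
  simp only [h2] at h1
  rw [Finset.sum_boole] at h1
  refine h1.trans ?_
  apply Finset.prod_le_prod
  · intro p _
    apply Finset.sum_nonneg
    intro r _
    split_ifs <;> norm_num
  · intro p hp
    obtain ⟨hpp, hpb⟩ := hT p hp
    have : Fact p.Prime := ⟨hpp⟩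
    rw [Finset.sum_boole]
    obtain ⟨r0, hr0, hr0p⟩ : ∃ r0 : ℕ, r0 < p ∧ p ∣ r0 * b + 1 := by
      refine ⟨(-(b : ZMod p)⁻¹).val, ZMod.val_lt _, ?_⟩
      have hb0 : (b : ZMod p) ≠ 0 := by
        intro h
        exact hpb ((ZMod.natCast_eq_zero_iff b p).1 h)
      rw [← ZMod.natCast_eq_zero_iff]
      push_cast
      rw [ZMod.natCast_val, ZMod.cast_id', id]
      field_simp
      ring
    have hr00 : r0 ≠ 0 := by
      intro h
      rw [h, zero_mul, zero_add] at hr0p
      exact hpp.one_lt.ne' (Nat.dvd_one.1 hr0p)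
    have h7 : (range p).filter (fun r => ¬ p ∣ r ∧ ¬ p ∣ r * b + 1) ⊆
        (range p) \ {0, r0} := by
      intro r hr
      obtain ⟨h8, h9, h10⟩ := Finset.mem_filter.1 hr
      rw [Finset.mem_sdiff, Finset.mem_insert, Finset.mem_singleton]
      refine ⟨h8, ?_⟩
      rintro (h | h)
      · exact h9 (h ▸ dvd_zero p)
      · exact h10 (h ▸ hr0p)
    have h8 := Finset.card_le_card h7
    have h9 : ({0, r0} : Finset ℕ) ⊆ range p := by
      intro r hr
      rw [Finset.mem_insert, Finset.mem_singleton] at hr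
      rw [Finset.mem_range]
      rcases hr with rfl | rfl
      · exact hpp.pos
      · exact hr0
    rw [Finset.card_sdiff_of_subset h9, Finset.card_range, Finset.card_pair (Ne.symm hr00)] at h8
    have h10 : (((p - 2 : ℕ)) : ℝ) = (p : ℝ) - 2 := by
      rw [Nat.cast_sub hpp.two_le]
      norm_num
    rw [← h10]
    exact_mod_cast h8

open Classical in
/-- the exceptional `a ≤ y` for `b` -/
noncomputable def Ex (S : Finset ℕ) (z b y : ℕ) : Finset ℕ :=
  (Icc 1 y).filter (fun a => (a * b + 1).Prime ∧ z < a * b + 1 ∧ ∀ p ∈ S, Gd b p → ¬ p ∣ a)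

theorem per_b {S : Finset ℕ} (hS : ∀ p ∈ S, p.Prime ∧ 11 ≤ p) {z : ℕ} (hz : ∀ p ∈ S, p ≤ z)
    (b y : ℕ) (hb : 1 ≤ b) (hy : ∏ p ∈ S, p < y) :
    ((Ex S z b y).card : ℝ) ≤ 44 * ((b : ℝ) / Nat.totient b) * ff S b * y /
      Real.log ((y : ℝ) / ∏ p ∈ S, (p : ℝ)) := by
  classical
  set T := S.filter (fun p => Gd b p) with hT
  have hTS : T ⊆ S := Finset.filter_subset _ _
  set W := ∏ p ∈ T, p with hW
  set W0 := ∏ p ∈ S, p with hW0
  have hWW0 : W ∣ W0 := Finset.prod_dvd_prod_of_subset _ _ _ hTS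
  have hW0pos : 0 < W0 := Finset.prod_pos fun p hp => (hS p hp).1.pos
  have hWpos : 0 < W := Finset.prod_pos fun p hp => (hS p (hTS hp)).1.pos
  have hWle : W ≤ W0 := Nat.le_of_dvd hW0pos hWW0
  set N := y / W + 1 with hN
  have hN2 : 2 ≤ N := by
    have : 1 ≤ y / W := (Nat.one_le_div_iff hWpos).2 (by omega)
    omega
  set R := (range W).filter (fun r => ∀ p ∈ T, ¬ p ∣ r ∧ ¬ p ∣ r * b + 1) with hR
  -- fibres
  have hfib : (Ex S z b y).card = ∑ r ∈ R, ((Ex S z b y).filter (fun a => a % W = r)).card := by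
    apply Finset.card_eq_sum_card_fiberwise
    intro a ha
    obtain ⟨h1, h2, h3, h4⟩ := Finset.mem_filter.1 (Finset.mem_coe.1 ha)
    rw [Finset.mem_coe, hR, Finset.mem_filter]
    refine ⟨Finset.mem_range.2 (Nat.mod_lt _ hWpos), fun p hp => ?_⟩
    have hpW : p ∣ W := Finset.dvd_prod_of_mem _ hp
    obtain ⟨hpS, hpG⟩ := Finset.mem_filter.1 hp
    constructor
    · intro h
      change p ∣ a % W at h
      exact h4 p hpS hpG ((Nat.dvd_mod_iff hpW).1 h)
    · intro h
      have h6 : a % W * b + 1 ≡ a * b + 1 [MOD p] :=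
        (((Nat.mod_modEq a W).of_dvd hpW).mul_right b).add_right 1
      have h7 : p ∣ a * b + 1 := (h6.dvd_iff (dvd_refl p)).1 h
      rcases (Nat.dvd_prime h2).1 h7 with h8 | h8
      · exact (hS p hpS).1.one_lt.ne' h8
      · have := hz p hpS
        omega
  have hbt : ∀ r ∈ R, (((Ex S z b y).filter (fun a => a % W = r)).card : ℝ) ≤
      22 * (((b * W : ℕ) : ℝ) / (b * W).totient) * N / Real.log N := by
    intro r _
    refine le_trans ?_ (Pool.Agent.TH915.UC.bt_gen (r * b + 1) (b * W) N (by positivity) hN2)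
    have : ((Ex S z b y).filter (fun a => a % W = r)).card ≤
        ((range N).filter (fun k => (r * b + 1 + k * (b * W)).Prime)).card := by
      apply Finset.card_le_card_of_injOn (fun a => a / W)
      · intro a ha
        obtain ⟨ha1, ha2⟩ := Finset.mem_filter.1 (Finset.mem_coe.1 ha)
        obtain ⟨h1, h2, h3, h4⟩ := Finset.mem_filter.1 ha1
        rw [Finset.mem_coe, Finset.mem_filter, Finset.mem_range]
        constructor
        · change a / W < N
          have : a / W ≤ y / W := Nat.div_le_div_right (Finset.mem_Icc.1 h1).2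
          omega
        · have h5 : r * b + 1 + a / W * (b * W) = a * b + 1 := by
            have h6 := Nat.div_add_mod a W
            rw [ha2] at h6
            calc r * b + 1 + a / W * (b * W) = (W * (a / W) + r) * b + 1 := by ring
              _ = a * b + 1 := by rw [h6]
          rw [h5]
          exact h2
      · intro a ha a' ha' haa
        have ha2 := (Finset.mem_filter.1 (Finset.mem_coe.1 ha)).2
        have ha2' := (Finset.mem_filter.1 (Finset.mem_coe.1 ha')).2
        rw [← Nat.div_add_mod a W, ← Nat.div_add_mod a' W, ha2, ha2']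
        simp only at haa
        rw [haa]
    exact_mod_cast this
  have hTG : ∀ p ∈ T, p.Prime ∧ ¬ p ∣ b := fun p hp =>
    ⟨(hS p (hTS hp)).1, (Finset.mem_filter.1 hp).2.1⟩
  have hRc := R_card (T := T) (b := b) hTG
  -- totients
  have hcop : Nat.Coprime b W := by
    apply Nat.Coprime.prod_right
    intro p hp
    exact ((hTG p hp).1.coprime_iff_not_dvd.2 (hTG p hp).2).symm
  have hφW : ((Nat.totient W : ℕ) : ℝ) = ∏ p ∈ T, ((p : ℝ) - 1) := by
    have hgen : ∀ U : Finset ℕ, (∀ p ∈ U, p.Prime) →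
        ((Nat.totient (∏ p ∈ U, p) : ℕ) : ℝ) = ∏ p ∈ U, ((p : ℝ) - 1) := by
      intro U
      induction U using Finset.induction_on with
      | empty => simp
      | insert p U hp ih =>
        intro hU
        have hpp : p.Prime := hU p (Finset.mem_insert_self _ _)
        have hU' : ∀ q ∈ U, q.Prime := fun q hq => hU q (Finset.mem_insert_of_mem hq)
        rw [Finset.prod_insert hp, Finset.prod_insert hp, Nat.totient_mul, Nat.cast_mul, ih hU',
          Nat.totient_prime hpp, Nat.cast_sub hpp.one_le, Nat.cast_one]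
        apply Nat.Coprime.prod_right
        intro q hq
        exact (Nat.coprime_primes hpp (hU' q hq)).2 fun h => hp (h ▸ hq)
    exact hgen T fun p hp => (hTG p hp).1
  have hp11 : ∀ p ∈ T, (11 : ℝ) ≤ p := fun p hp => by exact_mod_cast (hS p (hTS hp)).2
  have hP1 : 0 < ∏ p ∈ T, ((p : ℝ) - 1) := Finset.prod_pos fun p hp => by
    have := hp11 p hp
    linarith
  have hff : ff S b = ∏ p ∈ T, (1 - 1 / (p : ℝ)) := by
    unfold ff
    rw [hT, Finset.prod_filter]
  have hratio : ∏ p ∈ T, ((p : ℝ) - 2) ≤ ff S b * ∏ p ∈ T, ((p : ℝ) - 1) := by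
    rw [hff, ← Finset.prod_mul_distrib]
    apply Finset.prod_le_prod
    · intro p hp
      have := hp11 p hp
      linarith
    · intro p hp
      have h1 := hp11 p hp
      have h2 : (1 - 1 / (p : ℝ)) * ((p : ℝ) - 1) = p - 2 + 1 / p := by
        field_simp
        ring
      rw [h2]
      have : 0 ≤ 1 / (p : ℝ) := by positivity
      linarith
  have hff0 : 0 ≤ ff S b := ff_nonneg (fun p hp => (hS p hp).1.one_le) b
  have hbR : (1 : ℝ) ≤ b := by exact_mod_cast hb
  have hφb : (0 : ℝ) < Nat.totient b := by exact_mod_cast Nat.totient_pos.2 hb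
  have hWR : (0 : ℝ) < W := by exact_mod_cast hWpos
  have hW0R : (0 : ℝ) < W0 := by exact_mod_cast hW0pos
  have hyR : (W0 : ℝ) < y := by exact_mod_cast hy
  have hy0 : (0 : ℝ) < y := by linarith
  have hNR : (y : ℝ) / W0 ≤ N := by
    have h1 : y < N * W := by
      have := Nat.lt_div_mul_add (a := y) hWpos
      rw [hN, add_mul, one_mul]
      exact this
    have h2 : y ≤ N * W0 := h1.le.trans (Nat.mul_le_mul_left _ hWle)
    rw [div_le_iff₀ hW0R]
    exact_mod_cast h2
  have hlog0 : 0 < Real.log ((y : ℝ) / W0) := by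
    apply Real.log_pos
    rw [lt_div_iff₀ hW0R]
    linarith
  have hlog : Real.log ((y : ℝ) / W0) ≤ Real.log N :=
    Real.log_le_log (by positivity) hNR
  have hNW : (N : ℝ) * W ≤ 2 * y := by
    have h1 : N * W ≤ 2 * y := by
      rw [hN, add_mul, one_mul]
      have := Nat.div_mul_le_self y W
      omega
    exact_mod_cast h1
  have hN0 : (0 : ℝ) < N := by
    have : 0 < N := by omega
    exact_mod_cast this
  have hcast : (∏ p ∈ S, (p : ℝ)) = (W0 : ℝ) := by
    rw [hW0]
    push_cast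
    rfl
  rw [hcast]
  have hsum : ((Ex S z b y).card : ℝ) ≤
      (R.card : ℝ) * (22 * (((b * W : ℕ) : ℝ) / (b * W).totient) * N / Real.log N) := by
    rw [hfib]
    push_cast
    refine (Finset.sum_le_sum hbt).trans ?_
    rw [Finset.sum_const, nsmul_eq_mul]
    push_cast
    exact le_refl _
  have hRc2 : (R.card : ℝ) ≤ ff S b * ∏ p ∈ T, ((p : ℝ) - 1) := by
    refine le_trans ?_ hratio
    exact hRc
  have hlogN : 0 < Real.log N := lt_of_lt_of_le hlog0 hlog
  have hX0 : 0 ≤ 22 * (((b * W : ℕ) : ℝ) / (b * W).totient) * N / Real.log N := by positivity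
  calc ((Ex S z b y).card : ℝ)
      ≤ (ff S b * ∏ p ∈ T, ((p : ℝ) - 1)) *
        (22 * (((b * W : ℕ) : ℝ) / (b * W).totient) * N / Real.log N) :=
        hsum.trans (mul_le_mul_of_nonneg_right hRc2 hX0)
    _ = 22 * ((b : ℝ) / Nat.totient b) * ff S b * (N * W) / Real.log N := by
        rw [Nat.totient_mul hcop]
        push_cast
        rw [hφW]
        field_simp
    _ ≤ 22 * ((b : ℝ) / Nat.totient b) * ff S b * (2 * y) / Real.log N := by
        apply div_le_div_of_nonneg_right _ hlogN.le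
        exact mul_le_mul_of_nonneg_left hNW (by positivity)
    _ ≤ 22 * ((b : ℝ) / Nat.totient b) * ff S b * (2 * y) / Real.log ((y : ℝ) / W0) := by
        exact div_le_div_of_nonneg_left (by positivity) hlog0 hlog
    _ = _ := by ring

end Pool.Agent.Y525.QC
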